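import Mathlib
import Pool.Agent.Lib.MP_b573ec_lc_ST.Model

/-!
# CLIQUE
-/

set_option autoImplicit false

namespace Pool.Agent.SQ

open Pool.Agent.LT (Inp)
open Pool.Agent.ST (getBit)

/-- CLIQUE: the input consists of the bits `x_ij`, `i < j < n`, of a graph on `{0, ..., n - 1}`; they
are ordered by `j`, then by `i`, so `x_ij` is in the cell `j * (j - 1) / 2 + i`. The value is `true`
if the graph has a clique with at least `s` vertices. -/
def clique (n s : ℕ) (x : Inp (n.choose 2)) : Bool :=
  decide (∃ K : Finset (Fin n), s ≤ K.card ∧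
    ∀ i ∈ K, ∀ j ∈ K, i < j → getBit x ((j : ℕ).choose 2 + i) = true)

end Pool.Agent.SQ
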