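import Mathlib
import Pool.Agent.Lib.MP_69a69c_lc_SW.Defs
import Pool.Agent.Lib.MP_69a69c_lc_SQ.Defs

/-!
# Graphs from matrices

Vertices: `i < qb` (the places `a * qb + i` are pairs `(a, i)`, `a < qa`), universal vertices
`qb ≤ i < qb + U`, and for every group `j < M` the vertices `vtx ρ q j a c σ` with `a < qa`, a
counter `c < q` and a bit `σ < 2`. All other vertices are isolated.
-/

set_option autoImplicit false

namespace Pool.Agent.SQ

open Pool.Agent.LT (Inp)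
open Pool.Agent.ST (getBit)

/-- the entry of the matrix, `false` outside -/
def ent {N M : ℕ} (X : Fin N → Fin M → Bool) (t j : ℕ) : Bool :=
  if h : t < N ∧ j < M then X ⟨t, h.1⟩ ⟨j, h.2⟩ else false

/-- the vertex with counter `c` and bit `σ` in the row `a` of the group `j` -/
def vtx (ρ : ℕ → ℕ) (q j a c σ : ℕ) : ℕ := ρ j + (a * (2 * q) + (2 * c + σ))

/-- `r` is the vertex `(j, a, c, σ)` -/
def IsV (q qa M : ℕ) (ρ : ℕ → ℕ) (r j a c σ : ℕ) : Prop :=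
  j < M ∧ a < qa ∧ c < q ∧ σ < 2 ∧ r = vtx ρ q j a c σ

/-- the edges (between `i` and `r`, for `i < r`) -/
def EdgeQ (q qa qb U M : ℕ) (ρ : ℕ → ℕ) (X : Fin (qa * qb) → Fin M → Bool) (i r : ℕ) : Prop :=
  (qb ≤ r ∧ r < qb + U) ∨
  (qb ≤ i ∧ i < qb + U ∧ ∃ j a c σ, IsV q qa M ρ r j a c σ) ∨
  (i < qb ∧ ∃ j a c σ, IsV q qa M ρ r j a c σ ∧ ent X (a * qb + i) j = decide (σ = 1) ∧
    (j = 0 → c = 0) ∧ (j + 1 = M → q ∣ c + σ)) ∨
  ∃ a j c σ j' c' σ', IsV q qa M ρ i j a c σ ∧ IsV q qa M ρ r j' a c' σ' ∧ j < j' ∧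
    (j' = j + 1 → c' = (c + σ) % q)

open Classical in
/-- the input -/
noncomputable def encQ (n q qa qb U M : ℕ) (ρ : ℕ → ℕ) (X : Fin (qa * qb) → Fin M → Bool) :
    Inp (n.choose 2) := fun e =>
  decide (∃ i r, i < r ∧ (e : ℕ) = r.choose 2 + i ∧ EdgeQ q qa qb U M ρ X i r)

end Pool.Agent.SQ
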