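import Mathlib
import Pool.Agent.Lib.MP_69a69c_lc_SQ.Enc

/-!
# The cells of the input
-/

set_option autoImplicit false

namespace Pool.Agent.SQ

open Pool.Agent.LT (Inp)
open Pool.Agent.ST (getBit)

theorem choose_succ_two (r : ℕ) : (r + 1).choose 2 = r.choose 2 + r := by
  rw [Nat.choose_succ_succ' r 1, Nat.choose_one_right, Nat.add_comm]

theorem choose_two_mono {r r' : ℕ} (h : r ≤ r') : r.choose 2 ≤ r'.choose 2 :=
  Nat.choose_le_choose 2 h

/-- moving up by `d` rows of length at least `r` -/
theorem choose_two_add (r d : ℕ) : r.choose 2 + d * r ≤ (r + d).choose 2 := by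
  induction d with
  | zero => simp
  | succ d ih =>
    rw [← Nat.add_assoc, choose_succ_two, Nat.succ_mul]
    omega

/-- the pair is determined by the cell -/
theorem cell_inj {i r i' r' : ℕ} (hi : i < r) (hi' : i' < r')
    (h : r.choose 2 + i = r'.choose 2 + i') : i = i' ∧ r = r' := by
  rcases lt_trichotomy r r' with h1 | h1 | h1
  · have h2 := choose_two_mono (Nat.succ_le_of_lt h1)
    rw [Nat.succ_eq_add_one, choose_succ_two] at h2
    omega
  · subst h1
    omega
  · have h2 := choose_two_mono (Nat.succ_le_of_lt h1)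
    rw [Nat.succ_eq_add_one, choose_succ_two] at h2
    omega

theorem cell_lt {n i r : ℕ} (hi : i < r) (hr : r < n) : r.choose 2 + i < n.choose 2 := by
  have h2 := choose_two_mono (Nat.succ_le_of_lt hr)
  rw [Nat.succ_eq_add_one, choose_succ_two] at h2
  omega

theorem getBit_encQ {n q qa qb U M : ℕ} {ρ : ℕ → ℕ} (X : Fin (qa * qb) → Fin M → Bool) {i r : ℕ}
    (hi : i < r) (hr : r < n) :
    getBit (encQ n q qa qb U M ρ X) (r.choose 2 + i) = true ↔ EdgeQ q qa qb U M ρ X i r := by
  classical
  unfold getBit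
  rw [dif_pos (cell_lt hi hr)]
  unfold encQ
  simp only [decide_eq_true_eq]
  constructor
  · rintro ⟨i', r', hi', he, h⟩
    obtain ⟨rfl, rfl⟩ := cell_inj hi hi' he
    exact h
  · intro h
    exact ⟨i, r, hi, rfl, h⟩

end Pool.Agent.SQ
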