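import Mathlib
import Pool.Agent.Lib.MP_69a69c_lc_SQ.BitQ

/-!
# Changes inside a block
-/

set_option autoImplicit false

namespace Pool.Agent.SQ

open Pool.Agent.LT (Inp)
open Pool.Agent.HM (InI)

/-- a vertex of the group `j` in a row which is not changed: the cell is inside the block -/
private theorem in_block {q qa L b B' cm r0 a c σ i r ρj j : ℕ}
    (hL : L + j * b ≤ ρj.choose 2)
    (hR : (ρj + qa * (2 * q)).choose 2 ≤ L + (j + 1) * b)
    (hr0 : r0 ≤ ρj) (hcm : cm ≤ B' * (2 * q) * r0)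
    (hc : c < q) (hσ : σ < 2) (hir : i < r)
    (hr : r = ρj + (a * (2 * q) + (2 * c + σ))) (h1 : B' ≤ a) (h2 : a + B' < qa) :
    L + j * b + cm ≤ r.choose 2 + i ∧ r.choose 2 + i + cm < L + (j + 1) * b := by
  have e1 : B' * (2 * q) * r0 ≤ B' * (2 * q) * ρj := Nat.mul_le_mul_left _ hr0
  constructor
  · have h3 : ρj + B' * (2 * q) ≤ r := by
      have h4 : B' * (2 * q) ≤ a * (2 * q) := Nat.mul_le_mul_right _ h1
      omega
    have h5 := choose_two_mono h3
    have h6 := choose_two_add ρj (B' * (2 * q))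
    omega
  · have h3 : r + 1 ≤ ρj + (a + 1) * (2 * q) := by
      have h4 : (a + 1) * (2 * q) = a * (2 * q) + 2 * q := by ring
      omega
    have h4 : ρj + (a + 1) * (2 * q) + B' * (2 * q) ≤ ρj + qa * (2 * q) := by
      have h5 : (a + 1 + B') * (2 * q) ≤ qa * (2 * q) := Nat.mul_le_mul_right _ (by omega)
      have h6 : (a + 1 + B') * (2 * q) = (a + 1) * (2 * q) + B' * (2 * q) := by ring
      omega
    have h5 := choose_two_mono h4
    have h6 := choose_two_add (ρj + (a + 1) * (2 * q)) (B' * (2 * q))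
    have h7 : B' * (2 * q) * ρj ≤ B' * (2 * q) * (ρj + (a + 1) * (2 * q)) :=
      Nat.mul_le_mul_left _ (Nat.le_add_right _ _)
    have h8 := choose_two_mono h3
    rw [choose_succ_two] at h8
    omega

/-- the entries agree on the cells outside the block -/
private theorem ent_agree {n q qa qb M L b B' cm r0 : ℕ} {ρ : ℕ → ℕ}
    (hL : ∀ j < M, L + j * b ≤ (ρ j).choose 2)
    (hR : ∀ j < M, (ρ j + qa * (2 * q)).choose 2 ≤ L + (j + 1) * b)
    (hr0 : ∀ j < M, r0 ≤ ρ j) (hcm : cm ≤ B' * (2 * q) * r0)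
    (X Y : Fin (qa * qb) → Fin M → Bool) (j : Fin M)
    (hXY : ∀ (t : Fin (qa * qb)) (i : Fin M),
      ¬ (i = j ∧ qb * B' ≤ (t : ℕ) ∧ (t : ℕ) + qb * B' < qa * qb) → Y t i = X t i)
    (e : Fin (n.choose 2)) (he : ¬ InI L b cm j e) {i r j' a c σ : ℕ} (hir : i < r)
    (her : (e : ℕ) = r.choose 2 + i) (hi : i < qb) (hv : IsV q qa M ρ r j' a c σ) :
    ent Y (a * qb + i) j' = ent X (a * qb + i) j' := by
  obtain ⟨v1, v2, v3, v4, v5⟩ := hv
  unfold ent
  by_cases h : a * qb + i < qa * qb ∧ j' < M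
  · rw [dif_pos h, dif_pos h]
    apply hXY
    rintro ⟨h1, h2, h3⟩
    have h4 : j' = j := congrArg Fin.val h1
    subst h4
    apply he
    have h5 : B' ≤ a := by
      by_contra h6
      have h7 : (a + 1) * qb ≤ B' * qb := Nat.mul_le_mul_right _ (by omega)
      have h8 : (a + 1) * qb = a * qb + qb := by ring
      have h9 : qb * B' = B' * qb := Nat.mul_comm _ _
      simp only at h2
      omega
    have h6 : a + B' < qa := by
      by_contra h6
      have h7 : qa * qb ≤ (a + B') * qb := Nat.mul_le_mul_right _ (by omega)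
      have h8 : (a + B') * qb = a * qb + qb * B' := by ring
      simp only at h3
      omega
    have h7 := in_block (hL j v1) (hR j v1) (hr0 j v1) hcm v3 v4 hir v5 h5 h6
    unfold InI
    rw [her]
    exact h7
  · rw [dif_neg h, dif_neg h]

/-- one direction -/
private theorem edge_agree {n q qa qb U M L b B' cm r0 : ℕ} {ρ : ℕ → ℕ}
    (hL : ∀ j < M, L + j * b ≤ (ρ j).choose 2)
    (hR : ∀ j < M, (ρ j + qa * (2 * q)).choose 2 ≤ L + (j + 1) * b)
    (hr0 : ∀ j < M, r0 ≤ ρ j) (hcm : cm ≤ B' * (2 * q) * r0)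
    (X Y : Fin (qa * qb) → Fin M → Bool) (j : Fin M)
    (hXY : ∀ (t : Fin (qa * qb)) (i : Fin M),
      ¬ (i = j ∧ qb * B' ≤ (t : ℕ) ∧ (t : ℕ) + qb * B' < qa * qb) → Y t i = X t i)
    (e : Fin (n.choose 2)) (he : ¬ InI L b cm j e) {i r : ℕ} (hir : i < r)
    (her : (e : ℕ) = r.choose 2 + i) (h : EdgeQ q qa qb U M ρ X i r) :
    EdgeQ q qa qb U M ρ Y i r := by
  rcases h with h | h | h | h
  · exact Or.inl h
  · exact Or.inr (Or.inl h)
  · obtain ⟨h1, j', a, c, σ, h2, h3, h4⟩ := h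
    refine Or.inr (Or.inr (Or.inl ⟨h1, j', a, c, σ, h2, ?_, h4⟩))
    rw [ent_agree hL hR hr0 hcm X Y j hXY e he hir her h1 h2]
    exact h3
  · exact Or.inr (Or.inr (Or.inr h))

theorem encQ_agree {n q qa qb U M L b B' cm r0 : ℕ} {ρ : ℕ → ℕ}
    (hL : ∀ j < M, L + j * b ≤ (ρ j).choose 2)
    (hR : ∀ j < M, (ρ j + qa * (2 * q)).choose 2 ≤ L + (j + 1) * b)
    (hr0 : ∀ j < M, r0 ≤ ρ j) (h0 : ∀ j < M, qb ≤ ρ j) (hcm : cm ≤ B' * (2 * q) * r0)
    (X Y : Fin (qa * qb) → Fin M → Bool) (j : Fin M)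
    (hXY : ∀ (t : Fin (qa * qb)) (i : Fin M),
      ¬ (i = j ∧ qb * B' ≤ (t : ℕ) ∧ (t : ℕ) + qb * B' < qa * qb) → Y t i = X t i)
    (e : Fin (n.choose 2)) (he : ¬ InI L b cm j e) :
    encQ n q qa qb U M ρ Y e = encQ n q qa qb U M ρ X e := by
  classical
  unfold encQ
  rw [decide_eq_decide]
  constructor
  · rintro ⟨i, r, h1, h2, h3⟩
    exact ⟨i, r, h1, h2, edge_agree hL hR hr0 hcm Y X j
      (fun t i hti => (hXY t i hti).symm) e he h1 h2 h3⟩
  · rintro ⟨i, r, h1, h2, h3⟩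
    exact ⟨i, r, h1, h2, edge_agree hL hR hr0 hcm X Y j hXY e he h1 h2 h3⟩

end Pool.Agent.SQ
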