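import Mathlib
import Pool.Agent.Lib.MP_69a69c_lc_SQ.BitQ

/-!
# A column gives a clique
-/

set_option autoImplicit false

namespace Pool.Agent.SQ

open Pool.Agent.LT (Inp)
open Pool.Agent.ST (getBit)
open Pool.Agent.SW (cnt)

private theorem cnt_eq {N M : ℕ} (X : Fin N → Fin M → Bool) (t : Fin N) :
    cnt (X t) = ∑ i ∈ Finset.range M, (ent X (t : ℕ) i).toNat := by
  unfold cnt
  rw [Finset.card_filter, ← Fin.sum_univ_eq_sum_range (fun i => (ent X (t : ℕ) i).toNat) M]
  apply Finset.sum_congr rfl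
  intro i _
  have h : ent X (t : ℕ) (i : ℕ) = X t i := by
    unfold ent
    rw [dif_pos ⟨t.2, i.2⟩]
  rw [h]
  cases X t i <;> simp

private theorem vtx_bounds {q qa j a c σ : ℕ} (ρ : ℕ → ℕ) (ha : a < qa) (hc : c < q)
    (hσ : σ < 2) : ρ j ≤ vtx ρ q j a c σ ∧ vtx ρ q j a c σ < ρ j + qa * (2 * q) := by
  unfold vtx
  have h1 : (a + 1) * (2 * q) ≤ qa * (2 * q) := Nat.mul_le_mul_right _ ha
  rw [Nat.add_mul] at h1
  omega

theorem clique_of_col {n q qa qb U M : ℕ} {ρ : ℕ → ℕ} (hq : 2 ≤ q) (hM : 1 ≤ M)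
    (hn : ∀ j < M, ρ j + qa * (2 * q) ≤ n) (hUn : qb + U ≤ n) (h0 : ∀ j < M, qb + U ≤ ρ j)
    (hmono : ∀ j j', j < j' → j' < M → ρ j + qa * (2 * q) ≤ ρ j')
    (X : Fin (qa * qb) → Fin M → Bool) (t : Fin (qa * qb)) (ht : q ∣ cnt (X t)) :
    clique n (M + 1 + U) (encQ n q qa qb U M ρ X) = true := by
  classical
  have hqb : 0 < qb := by
    rcases Nat.eq_zero_or_pos qb with h | h
    · exfalso
      have h2 : (t : ℕ) < qa * qb := t.2
      have h3 : qa * qb = 0 := by rw [h, Nat.mul_zero]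
      omega
    · exact h
  have ha : (t : ℕ) / qb < qa := by
    rw [Nat.div_lt_iff_lt_mul hqb]
    exact t.2
  have hβ : (t : ℕ) % qb < qb := Nat.mod_lt _ hqb
  have hdm : (t : ℕ) / qb * qb + (t : ℕ) % qb = (t : ℕ) := Nat.div_add_mod' _ _
  obtain ⟨a, hadef⟩ : ∃ a, a = (t : ℕ) / qb := ⟨_, rfl⟩
  obtain ⟨β, hβdef⟩ : ∃ β, β = (t : ℕ) % qb := ⟨_, rfl⟩
  rw [← hadef] at ha hdm
  rw [← hβdef] at hβ hdm
  obtain ⟨sg, hsg⟩ : ∃ sg : ℕ → ℕ, ∀ j, sg j = (ent X (t : ℕ) j).toNat := ⟨_, fun _ => rfl⟩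
  obtain ⟨c, hc⟩ : ∃ c : ℕ → ℕ, ∀ j, c j = (∑ i ∈ Finset.range j, sg i) % q := ⟨_, fun _ => rfl⟩
  obtain ⟨v, hv⟩ : ∃ v : ℕ → ℕ, ∀ j, v j = vtx ρ q j a (c j) (sg j) := ⟨_, fun _ => rfl⟩
  have hcq : ∀ j, c j < q := by
    intro j
    rw [hc]
    exact Nat.mod_lt _ (by omega)
  have hs2 : ∀ j, sg j < 2 := by
    intro j
    rw [hsg]
    cases ent X (t : ℕ) j <;> simp
  have hsd : ∀ j, ent X (a * qb + β) j = decide (sg j = 1) := by
    intro j
    rw [hdm, hsg]
    cases ent X (t : ℕ) j <;> simp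
  have hvb : ∀ j, ρ j ≤ v j ∧ v j < ρ j + qa * (2 * q) := by
    intro j
    rw [hv]
    exact vtx_bounds ρ ha (hcq j) (hs2 j)
  have hsucc : ∀ j, c (j + 1) = (c j + sg j) % q := by
    intro j
    rw [hc (j + 1), hc j, Finset.sum_range_succ, Nat.mod_add_mod]
  have hlast : ∀ j, j + 1 = M → q ∣ c j + sg j := by
    intro j hj
    have h1 : cnt (X t) = ∑ i ∈ Finset.range (j + 1), sg i := by
      rw [cnt_eq, hj]
      exact Finset.sum_congr rfl fun i _ => (hsg i).symm
    have h2 : (c j + sg j) % q = 0 := by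
      rw [← hsucc j, hc (j + 1), ← h1]
      exact Nat.mod_eq_zero_of_dvd ht
    exact Nat.dvd_of_mod_eq_zero h2
  have hvlt : ∀ j j', j < M → j' < M → v j < v j' → j < j' := by
    intro j j' hj hj' h
    rcases lt_trichotomy j j' with h1 | h1 | h1
    · exact h1
    · subst h1
      exact absurd h (lt_irrefl _)
    · exfalso
      have h2 := hmono j' j h1 hj
      have h3 := hvb j
      have h4 := hvb j'
      omega
  have hvinj : ∀ j j', j < M → j' < M → v j = v j' → j = j' := by
    intro j j' hj hj' h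
    rcases lt_trichotomy j j' with h1 | h1 | h1
    · exfalso
      have h2 := hmono j j' h1 hj'
      have h3 := hvb j
      have h4 := hvb j'
      omega
    · exact h1
    · exfalso
      have h2 := hmono j' j h1 hj
      have h3 := hvb j
      have h4 := hvb j'
      omega
  have hV : ∀ j < M, IsV q qa M ρ (v j) j a (c j) (sg j) := fun j hj =>
    ⟨hj, ha, hcq j, hs2 j, hv j⟩
  -- the vertices of the clique
  obtain ⟨A, hA⟩ : ∃ A : Finset ℕ, A = {β} ∪ (Finset.Ico qb (qb + U) ∪
      (Finset.range M).image v) := ⟨_, rfl⟩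
  have hmem : ∀ x, x ∈ A ↔ x = β ∨ (qb ≤ x ∧ x < qb + U) ∨ ∃ j < M, x = v j := by
    intro x
    rw [hA]
    simp only [Finset.mem_union, Finset.mem_singleton, Finset.mem_Ico, Finset.mem_image,
      Finset.mem_range]
    constructor
    · rintro (h | h | ⟨j, hj, h⟩)
      · exact Or.inl h
      · exact Or.inr (Or.inl h)
      · exact Or.inr (Or.inr ⟨j, hj, h.symm⟩)
    · rintro (h | h | ⟨j, hj, h⟩)
      · exact Or.inl h
      · exact Or.inr (Or.inl h)
      · exact Or.inr (Or.inr ⟨j, hj, h.symm⟩)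
  have hAcard : A.card = M + 1 + U := by
    rw [hA, Finset.card_union_of_disjoint, Finset.card_union_of_disjoint, Finset.card_singleton,
      Nat.card_Ico, Finset.card_image_of_injOn, Finset.card_range]
    · omega
    · intro j hj j' hj' h
      simp only [Finset.coe_range, Set.mem_Iio] at hj hj'
      exact hvinj j j' hj hj' h
    · rw [Finset.disjoint_left]
      intro x hx hx'
      simp only [Finset.mem_Ico, Finset.mem_image, Finset.mem_range] at hx hx'
      obtain ⟨j, hj, rfl⟩ := hx'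
      have h1 := h0 j hj
      have h2 := hvb j
      omega
    · rw [Finset.disjoint_left]
      intro x hx hx'
      simp only [Finset.mem_singleton, Finset.mem_union, Finset.mem_Ico, Finset.mem_image,
        Finset.mem_range] at hx hx'
      rcases hx' with h | ⟨j, hj, h⟩
      · omega
      · have h1 := h0 j hj
        have h2 := hvb j
        omega
  have hAn : ∀ x ∈ A, x < n := by
    intro x hx
    rcases (hmem x).1 hx with h | h | ⟨j, hj, h⟩
    · omega
    · omega
    · have h1 := hn j hj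
      have h2 := hvb j
      omega
  have hedge : ∀ i ∈ A, ∀ r ∈ A, i < r → EdgeQ q qa qb U M ρ X i r := by
    intro i hi r hr hir
    unfold EdgeQ
    rcases (hmem r).1 hr with h | h | ⟨j', hj', h⟩
    · exfalso
      rcases (hmem i).1 hi with h2 | h2 | ⟨j, hj, h2⟩
      · omega
      · omega
      · have h1 := h0 j hj
        have h3 := hvb j
        omega
    · exact Or.inl h
    · rcases (hmem i).1 hi with h2 | h2 | ⟨j, hj, h2⟩
      · refine Or.inr (Or.inr (Or.inl ⟨by omega, j', a, c j', sg j', ?_, ?_, ?_, ?_⟩))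
        · rw [h]
          exact hV j' hj'
        · rw [h2]
          exact hsd j'
        · intro h3
          rw [h3, hc]
          simp
        · exact hlast j'
      · refine Or.inr (Or.inl ⟨h2.1, h2.2, j', a, c j', sg j', ?_⟩)
        rw [h]
        exact hV j' hj'
      · refine Or.inr (Or.inr (Or.inr ⟨a, j, c j, sg j, j', c j', sg j', ?_, ?_, ?_, ?_⟩))
        · rw [h2]
          exact hV j hj
        · rw [h]
          exact hV j' hj'
        · rw [h, h2] at hir
          exact hvlt j j' hj hj' hir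
        · intro h3
          rw [h3]
          exact hsucc j
  unfold clique
  rw [decide_eq_true_eq]
  refine ⟨Finset.univ.filter fun i : Fin n => (i : ℕ) ∈ A, ?_, ?_⟩
  · obtain ⟨K, hK⟩ : ∃ K : Finset (Fin n), K = Finset.univ.filter fun i : Fin n => (i : ℕ) ∈ A :=
      ⟨_, rfl⟩
    rw [← hK]
    have h1 : A ⊆ K.image Fin.val := by
      intro x hx
      rw [Finset.mem_image]
      refine ⟨⟨x, hAn x hx⟩, ?_, rfl⟩
      rw [hK]
      exact Finset.mem_filter.2 ⟨Finset.mem_univ _, hx⟩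
    calc M + 1 + U = A.card := hAcard.symm
      _ ≤ (K.image Fin.val).card := Finset.card_le_card h1
      _ ≤ K.card := Finset.card_image_le
  · intro i hi r hr hir
    rw [Finset.mem_filter] at hi hr
    exact (getBit_encQ X hir r.2).2 (hedge _ hi.2 _ hr.2 hir)

end Pool.Agent.SQ
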