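import Mathlib
import Pool.Agent.Lib.MP_69a69c_lc_SQ.BitQ

/-!
# A clique gives a column
-/

set_option autoImplicit false

namespace Pool.Agent.SQ

open Pool.Agent.LT (Inp)
open Pool.Agent.ST (getBit)
open Pool.Agent.SW (cnt)

private theorem isV_ge {q qa M : ℕ} {ρ : ℕ → ℕ} {r j a c σ : ℕ} (h : IsV q qa M ρ r j a c σ) :
    ρ j ≤ r := by
  rw [h.2.2.2.2, vtx]
  exact Nat.le_add_right _ _

private theorem isV_lt {q qa M : ℕ} {ρ : ℕ → ℕ} {r j a c σ : ℕ} (h : IsV q qa M ρ r j a c σ) :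
    r < ρ j + qa * (2 * q) := by
  obtain ⟨-, ha, hc, hσ, hr⟩ := h
  have h1 : (a + 1) * (2 * q) ≤ qa * (2 * q) := Nat.mul_le_mul_right _ ha
  rw [Nat.succ_mul] at h1
  rw [hr, vtx]
  omega

private theorem isV_unique {q qa M : ℕ} {ρ : ℕ → ℕ}
    (hmono : ∀ j j', j < j' → j' < M → ρ j + qa * (2 * q) ≤ ρ j') {r j a c σ j' a' c' σ' : ℕ}
    (h : IsV q qa M ρ r j a c σ) (h' : IsV q qa M ρ r j' a' c' σ') :
    j = j' ∧ a = a' ∧ c = c' ∧ σ = σ' := by
  have hj : j = j' := by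
    rcases lt_trichotomy j j' with h1 | h1 | h1
    · have h2 := hmono j j' h1 h'.1
      have h3 := isV_lt h
      have h4 := isV_ge h'
      omega
    · exact h1
    · have h2 := hmono j' j h1 h.1
      have h3 := isV_lt h'
      have h4 := isV_ge h
      omega
  subst hj
  obtain ⟨-, ha, hc, hσ, hr⟩ := h
  obtain ⟨-, ha', hc', hσ', hr'⟩ := h'
  rw [vtx] at hr hr'
  have ha2 : a = a' := by
    rcases lt_trichotomy a a' with h1 | h1 | h1
    · have h2 : (a + 1) * (2 * q) ≤ a' * (2 * q) := Nat.mul_le_mul_right _ h1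
      rw [Nat.succ_mul] at h2
      omega
    · exact h1
    · have h2 : (a' + 1) * (2 * q) ≤ a * (2 * q) := Nat.mul_le_mul_right _ h1
      rw [Nat.succ_mul] at h2
      omega
  subst ha2
  refine ⟨rfl, rfl, ?_, ?_⟩
  · omega
  · omega

/-- `r` has the colour `x` -/
private def Col (q qa qb U M : ℕ) (ρ : ℕ → ℕ) (r x : ℕ) : Prop :=
  (r < qb ∧ x = 0) ∨ (qb ≤ r ∧ r < qb + U ∧ x = 1 + (r - qb)) ∨
    ∃ j a c σ, IsV q qa M ρ r j a c σ ∧ x = 1 + U + j

private theorem col_ne {q qa qb U M : ℕ} {ρ : ℕ → ℕ} (h0 : ∀ j < M, qb + U ≤ ρ j)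
    (hmono : ∀ j j', j < j' → j' < M → ρ j + qa * (2 * q) ≤ ρ j')
    {X : Fin (qa * qb) → Fin M → Bool} {i r x : ℕ} (hir : i < r)
    (he : EdgeQ q qa qb U M ρ X i r) (hi : Col q qa qb U M ρ i x)
    (hr : Col q qa qb U M ρ r x) : False := by
  have hge : ∀ {r j a c σ : ℕ}, IsV q qa M ρ r j a c σ → qb + U ≤ r := fun h =>
    (h0 _ h.1).trans (isV_ge h)
  rcases he with ⟨h1, h2⟩ | ⟨h1, h2, j, a, c, σ, h3⟩ | ⟨h1, j, a, c, σ, h3, -⟩ |
    ⟨a, j, c, σ, j', c', σ', h1, h2, h3, -⟩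
  · rcases hr with ⟨h4, h5⟩ | ⟨h4, h5, h6⟩ | ⟨j, a, c, σ, h4, h5⟩
    · omega
    · rcases hi with ⟨h7, h8⟩ | ⟨h7, h8, h9⟩ | ⟨j, a, c, σ, h7, h8⟩
      · omega
      · omega
      · have := hge h7
        omega
    · have := hge h4
      omega
  · have h4 := hge h3
    rcases hr with ⟨h5, h6⟩ | ⟨h5, h6, h7⟩ | ⟨j', a', c', σ', h5, h6⟩
    · omega
    · omega
    · rcases hi with ⟨h7, h8⟩ | ⟨h7, h8, h9⟩ | ⟨j, a, c, σ, h7, h8⟩
      · omega
      · omega
      · have := hge h7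
        omega
  · have h4 := hge h3
    rcases hr with ⟨h5, h6⟩ | ⟨h5, h6, h7⟩ | ⟨j', a', c', σ', h5, h6⟩
    · omega
    · omega
    · rcases hi with ⟨h7, h8⟩ | ⟨h7, h8, h9⟩ | ⟨j, a, c, σ, h7, h8⟩
      · omega
      · omega
      · have := hge h7
        omega
  · have h4 := hge h1
    have h5 := hge h2
    rcases hr with ⟨h6, h7⟩ | ⟨h6, h7, h8⟩ | ⟨j1, a1, c1, σ1, h6, h7⟩
    · omega
    · omega
    · rcases hi with ⟨h8, h9⟩ | ⟨h8, h9, h10⟩ | ⟨j2, a2, c2, σ2, h8, h9⟩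
      · omega
      · omega
      · have h10 := (isV_unique hmono h1 h8).1
        have h11 := (isV_unique hmono h2 h6).1
        omega

private theorem col_exists {q qa qb U M : ℕ} {ρ : ℕ → ℕ}
    {X : Fin (qa * qb) → Fin M → Bool} {i r : ℕ} (hir : i < r)
    (he : EdgeQ q qa qb U M ρ X i r) :
    (∃ x < M + 1 + U, Col q qa qb U M ρ i x) ∧ ∃ x < M + 1 + U, Col q qa qb U M ρ r x := by
  have hsm : ∀ {r : ℕ}, r < qb + U → ∃ x < M + 1 + U, Col q qa qb U M ρ r x := by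
    intro r hr
    by_cases h : r < qb
    · exact ⟨0, by omega, Or.inl ⟨h, rfl⟩⟩
    · exact ⟨1 + (r - qb), by omega, Or.inr (Or.inl ⟨not_lt.1 h, hr, rfl⟩)⟩
  have hv : ∀ {r j a c σ : ℕ}, IsV q qa M ρ r j a c σ →
      ∃ x < M + 1 + U, Col q qa qb U M ρ r x := by
    intro r j a c σ h
    have := h.1
    exact ⟨1 + U + j, by omega, Or.inr (Or.inr ⟨j, a, c, σ, h, rfl⟩)⟩
  rcases he with ⟨h1, h2⟩ | ⟨h1, h2, j, a, c, σ, h3⟩ | ⟨h1, j, a, c, σ, h3, -⟩ |
    ⟨a, j, c, σ, j', c', σ', h1, h2, -⟩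
  · exact ⟨hsm (by omega), hsm h2⟩
  · exact ⟨hsm h2, hv h3⟩
  · exact ⟨hsm (by omega), hv h3⟩
  · exact ⟨hv h1, hv h2⟩

theorem col_of_clique {n q qa qb U M : ℕ} {ρ : ℕ → ℕ} (hq : 2 ≤ q) (hM : 1 ≤ M)
    (h0 : ∀ j < M, qb + U ≤ ρ j)
    (hmono : ∀ j j', j < j' → j' < M → ρ j + qa * (2 * q) ≤ ρ j')
    (X : Fin (qa * qb) → Fin M → Bool)
    (h : clique n (M + 1 + U) (encQ n q qa qb U M ρ X) = true) : ∃ t, q ∣ cnt (X t) := by
  classical
  unfold clique at h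
  rw [decide_eq_true_eq] at h
  obtain ⟨K, hK, hadj⟩ := h
  have hedge : ∀ i ∈ K, ∀ r ∈ K, i < r → EdgeQ q qa qb U M ρ X i r := by
    intro i hi r hr hir
    exact (getBit_encQ X hir r.2).1 (hadj i hi r hr hir)
  have hge : ∀ {r j a c σ : ℕ}, IsV q qa M ρ r j a c σ → qb + U ≤ r := fun h =>
    (h0 _ h.1).trans (isV_ge h)
  -- colours
  have hcol : ∀ r : K, ∃ x < M + 1 + U, Col q qa qb U M ρ ((r : Fin n) : ℕ) x := by
    rintro ⟨r, hr⟩
    have h2 : 1 < K.card := by omega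
    obtain ⟨i, hi, hne⟩ := Finset.exists_mem_ne h2 r
    rcases lt_or_gt_of_ne hne with h3 | h3
    · exact (col_exists (Fin.lt_def.1 h3) (hedge i hi r hr h3)).2
    · exact (col_exists (Fin.lt_def.1 h3) (hedge r hr i hi h3)).1
  choose f hf1 hf2 using hcol
  have hinj : Function.Injective f := by
    rintro ⟨i, hi⟩ ⟨r, hr⟩ hfe
    by_contra hne
    have hne' : i ≠ r := fun h => hne (Subtype.ext h)
    have h1 := hf2 ⟨i, hi⟩
    have h2 := hf2 ⟨r, hr⟩
    rw [hfe] at h1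
    rcases lt_or_gt_of_ne hne' with h3 | h3
    · exact col_ne h0 hmono (Fin.lt_def.1 h3) (hedge i hi r hr h3) h1 h2
    · exact col_ne h0 hmono (Fin.lt_def.1 h3) (hedge r hr i hi h3) h2 h1
  have hsurj : ∀ x < M + 1 + U, ∃ r ∈ K, Col q qa qb U M ρ (r : ℕ) x := by
    have h1 : Finset.univ.image f ⊆ Finset.range (M + 1 + U) := by
      intro x hx
      obtain ⟨r, -, rfl⟩ := Finset.mem_image.1 hx
      exact Finset.mem_range.2 (hf1 r)
    have h2 : (Finset.range (M + 1 + U)).card ≤ (Finset.univ.image f).card := by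
      rw [Finset.card_image_of_injective _ hinj, Finset.card_range, Finset.card_univ,
        Fintype.card_coe]
      exact hK
    have h3 := Finset.eq_of_subset_of_card_le h1 h2
    intro x hx
    have h4 : x ∈ Finset.univ.image f := by
      rw [h3]
      exact Finset.mem_range.2 hx
    obtain ⟨r, -, rfl⟩ := Finset.mem_image.1 h4
    exact ⟨r, r.2, hf2 r⟩
  -- the vertices
  obtain ⟨β, hβ, hβc⟩ := hsurj 0 (by omega)
  have hβ1 : (β : ℕ) < qb := by
    rcases hβc with ⟨h1, -⟩ | ⟨-, -, h1⟩ | ⟨j, a, c, σ, -, h1⟩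
    · exact h1
    · omega
    · omega
  have hv : ∀ j, ∃ (v : Fin n) (a c σ : ℕ), j < M → v ∈ K ∧ IsV q qa M ρ (v : ℕ) j a c σ := by
    intro j
    by_cases hj : j < M
    · obtain ⟨r, hr, hrc⟩ := hsurj (1 + U + j) (by omega)
      rcases hrc with ⟨h1, h2⟩ | ⟨h1, h2, h3⟩ | ⟨j', a, c, σ, h1, h2⟩
      · omega
      · omega
      · have h3 : j' = j := by omega
        subst h3
        exact ⟨r, a, c, σ, fun _ => ⟨hr, h1⟩⟩
    · exact ⟨β, 0, 0, 0, fun h => absurd h hj⟩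
  choose v a c σ hvv using hv
  have e1 : ∀ j < M, ent X (a j * qb + β) j = decide (σ j = 1) ∧ (j = 0 → c j = 0) ∧
      (j + 1 = M → q ∣ c j + σ j) := by
    intro j hj
    obtain ⟨h1, h2⟩ := hvv j hj
    have h3 := hge h2
    have h4 : β < v j := Fin.lt_def.2 (by omega)
    rcases hedge β hβ (v j) h1 h4 with ⟨h5, h6⟩ | ⟨h5, h6, -⟩ |
      ⟨h5, j', a', c', σ', h6, h7, h8, h9⟩ |
      ⟨a', j', c', σ', j2, c2, σ2, h5, -⟩
    · omega
    · omega
    · obtain ⟨rfl, h10, h11, h12⟩ := isV_unique hmono h2 h6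
      rw [h10, h11, h12]
      exact ⟨h7, h8, h9⟩
    · have := hge h5
      omega
  have e2 : ∀ j j', j < j' → j' < M → a j = a j' ∧ (j' = j + 1 → c j' = (c j + σ j) % q) := by
    intro j j' hjj hj'
    obtain ⟨h1, h2⟩ := hvv j (hjj.trans hj')
    obtain ⟨h3, h4⟩ := hvv j' hj'
    have h5 : v j < v j' := by
      have h6 := isV_lt h2
      have h7 := isV_ge h4
      have h8 := hmono j j' hjj hj'
      exact Fin.lt_def.2 (by omega)
    have h6 := hge h2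
    have h7 := hge h4
    rcases hedge (v j) h1 (v j') h3 h5 with ⟨h8, h9⟩ | ⟨h8, h9, -⟩ | ⟨h8, -⟩ |
      ⟨a1, j1, c1, σ1, j2, c2, σ2, h8, h9, h10, h11⟩
    · omega
    · omega
    · omega
    · obtain ⟨h12, h13, h14, h15⟩ := isV_unique hmono h2 h8
      obtain ⟨h16, h17, h18, h19⟩ := isV_unique hmono h4 h9
      rw [h13, h14, h15, h17, h18]
      refine ⟨rfl, fun h => h11 ?_⟩
      rw [← h12, ← h16, h]
  have ha : ∀ j < M, a j = a 0 := by
    intro j hj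
    rcases Nat.eq_zero_or_pos j with h1 | h1
    · rw [h1]
    · exact (e2 0 j h1 hj).1.symm
  have hlt : a 0 * qb + β < qa * qb := by
    have h1 : (a 0 + 1) * qb ≤ qa * qb := Nat.mul_le_mul_right _ (hvv 0 hM).2.2.1
    rw [Nat.succ_mul] at h1
    omega
  refine ⟨⟨a 0 * qb + β, hlt⟩, ?_⟩
  obtain ⟨s, hs⟩ : ∃ s : ℕ → ℕ, s = fun j =>
      ∑ i ∈ Finset.range j, (if ent X (a 0 * qb + β) i = true then 1 else 0) := ⟨_, rfl⟩
  have hσ : ∀ j < M, (if ent X (a 0 * qb + β) j = true then 1 else 0) = σ j := by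
    intro j hj
    have h1 := (e1 j hj).1
    rw [ha j hj] at h1
    have h2 := (hvv j hj).2.2.2.2.1
    by_cases h3 : σ j = 1
    · rw [if_pos (h1.trans (decide_eq_true h3)), h3]
    · rw [if_neg]
      · omega
      · rw [h1]
        exact fun h => h3 (of_decide_eq_true h)
  have hs1 : ∀ j < M, s (j + 1) = s j + σ j := by
    intro j hj
    rw [hs]
    simp only []
    rw [Finset.sum_range_succ, hσ j hj]
  have hind : ∀ j < M, c j = s j % q := by
    intro j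
    induction j with
    | zero =>
      intro h1
      rw [(e1 0 h1).2.1 rfl, hs]
      simp
    | succ j ih =>
      intro h1
      have h2 : j < M := by omega
      rw [(e2 j (j + 1) (Nat.lt_succ_self j) h1).2 rfl, hs1 j h2, ih h2, Nat.mod_add_mod]
  have hlast : q ∣ s M := by
    obtain ⟨M', rfl⟩ : ∃ M', M = M' + 1 := ⟨M - 1, by omega⟩
    have h1 : M' < M' + 1 := Nat.lt_succ_self M'
    have h2 := (e1 M' h1).2.2 rfl
    rw [hind M' h1] at h2
    rw [hs1 M' h1]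
    have h3 := Nat.dvd_iff_mod_eq_zero.1 h2
    rw [Nat.mod_add_mod] at h3
    exact Nat.dvd_iff_mod_eq_zero.2 h3
  have hcnt : cnt (X ⟨a 0 * qb + β, hlt⟩) = s M := by
    unfold cnt
    rw [hs, Finset.card_filter]
    simp only []
    rw [Finset.sum_range]
    apply Finset.sum_congr rfl
    intro i _
    unfold ent
    rw [dif_pos ⟨hlt, i.2⟩]
  rw [hcnt]
  exact hlast

end Pool.Agent.SQ
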