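import Mathlib
import Pool.Agent.Lib.MP_69a69c_lc_SQ.CliqueQ1
import Pool.Agent.Lib.MP_69a69c_lc_SQ.CliqueQ2

/-!
# The graph has a clique iff there is a column
-/

set_option autoImplicit false

namespace Pool.Agent.SQ

open Pool.Agent.SW (NoC)

theorem clique_encQ {n q qa qb U M : ℕ} {ρ : ℕ → ℕ} (hq : 2 ≤ q) (hM : 1 ≤ M)
    (hn : ∀ j < M, ρ j + qa * (2 * q) ≤ n) (hUn : qb + U ≤ n) (h0 : ∀ j < M, qb + U ≤ ρ j)
    (hmono : ∀ j j', j < j' → j' < M → ρ j + qa * (2 * q) ≤ ρ j')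
    (X : Fin (qa * qb) → Fin M → Bool) :
    clique n (M + 1 + U) (encQ n q qa qb U M ρ X) = false ↔ NoC q X := by
  constructor
  · intro h t ht
    rw [clique_of_col hq hM hn hUn h0 hmono X t ht] at h
    exact Bool.noConfusion h
  · intro h
    by_contra hc
    rw [Bool.not_eq_false] at hc
    obtain ⟨t, ht⟩ := col_of_clique hq hM h0 hmono X hc
    exact h t ht

end Pool.Agent.SQ
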