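import Mathlib
import Pool.Agent.Lib.MP_69a69c_lc_SQ.BitQ

/-!
# The rows of the groups
-/

set_option autoImplicit false

namespace Pool.Agent.SQ

/-- the positions of `M` groups of `h` rows -/
theorem rowsQ {n r0 M h : ℕ} (hn : r0.choose 2 + M * ((h + 1) * n) ≤ n.choose 2) (hr : 1 ≤ r0)
    (hrn : r0 ≤ n) :
    ∃ ρ : ℕ → ℕ, (∀ j < M, r0.choose 2 + j * ((h + 1) * n) ≤ (ρ j).choose 2) ∧
      (∀ j < M, (ρ j + h).choose 2 ≤ r0.choose 2 + (j + 1) * ((h + 1) * n)) ∧
      (∀ j < M, r0 ≤ ρ j) ∧ (∀ j < M, ρ j + h ≤ n) ∧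
      ∀ j j', j < j' → j' < M → ρ j + h ≤ ρ j' := by
  classical
  have hex : ∀ j : ℕ, j < M → ∃ r, r0 ≤ r ∧ r0.choose 2 + j * ((h + 1) * n) ≤ r.choose 2 := by
    intro j hj
    refine ⟨n, hrn, le_trans ?_ hn⟩
    exact Nat.add_le_add_left (Nat.mul_le_mul_right _ hj.le) _
  obtain ⟨ρ, hρ⟩ : ∃ ρ : ℕ → ℕ, ∀ j, j < M → (r0 ≤ ρ j ∧
      r0.choose 2 + j * ((h + 1) * n) ≤ (ρ j).choose 2) ∧
      ∀ r, r < ρ j → ¬ (r0 ≤ r ∧ r0.choose 2 + j * ((h + 1) * n) ≤ r.choose 2) := by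
    refine ⟨fun j => if hj : j < M then Nat.find (hex j hj) else 0, fun j hj => ?_⟩
    simp only [dif_pos hj]
    exact ⟨Nat.find_spec (hex j hj), fun r hr => Nat.find_min (hex j hj) hr⟩
  have hρn : ∀ j < M, ρ j ≤ n := by
    intro j hj
    by_contra hc
    exact (hρ j hj).2 n (by omega) ⟨hrn, le_trans
      (Nat.add_le_add_left (Nat.mul_le_mul_right _ hj.le) _) hn⟩
  have hup : ∀ j < M, (ρ j).choose 2 ≤ r0.choose 2 + j * ((h + 1) * n) + n := by
    intro j hj
    rcases Nat.lt_or_ge r0 (ρ j) with hlt | hge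
    · obtain ⟨r, hr'⟩ : ∃ r, ρ j = r + 1 := ⟨ρ j - 1, by omega⟩
      have h1 := (hρ j hj).2 r (by omega)
      have h2 : r.choose 2 < r0.choose 2 + j * ((h + 1) * n) := by
        by_contra hc
        exact h1 ⟨by omega, by omega⟩
      have h3 := hρn j hj
      rw [hr', choose_succ_two]
      omega
    · have h1 : ρ j = r0 := le_antisymm hge (hρ j hj).1.1
      rw [h1]
      omega
  have key : ∀ j < M, ∀ i ≤ h, ρ j + i ≤ n ∧
      (ρ j + i).choose 2 ≤ r0.choose 2 + j * ((h + 1) * n) + (i + 1) * n := by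
    intro j hj i
    induction i with
    | zero =>
      intro _
      refine ⟨hρn j hj, ?_⟩
      have := hup j hj
      simpa using this
    | succ i ih =>
      intro hi
      obtain ⟨h1, h2⟩ := ih (by omega)
      have h3 : (ρ j + (i + 1)).choose 2 ≤
          r0.choose 2 + j * ((h + 1) * n) + (i + 1 + 1) * n := by
        rw [← Nat.add_assoc, choose_succ_two, Nat.succ_mul (i + 1)]
        omega
      refine ⟨?_, h3⟩
      by_contra hc
      have h4 : ρ j + (i + 1) = n + 1 := by omega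
      rw [h4, choose_succ_two] at h3
      have h5 : (i + 1 + 1) * n ≤ (h + 1) * n := Nat.mul_le_mul_right _ (by omega)
      have h6 : (j + 1) * ((h + 1) * n) ≤ M * ((h + 1) * n) := Nat.mul_le_mul_right _ hj
      rw [Nat.succ_mul] at h6
      omega
  refine ⟨ρ, fun j hj => (hρ j hj).1.2, fun j hj => ?_, fun j hj => (hρ j hj).1.1,
    fun j hj => (key j hj h le_rfl).1, fun j j' hjj hj' => ?_⟩
  · have h1 := (key j hj h le_rfl).2
    rw [Nat.succ_mul j]
    omega
  · have h1 := (key j (hjj.trans hj') h le_rfl).2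
    have h2 := (hρ j' hj').1.2
    have h3 : (j + 1) * ((h + 1) * n) ≤ j' * ((h + 1) * n) := Nat.mul_le_mul_right _ hjj
    rw [Nat.succ_mul] at h3
    by_contra hc
    have h4 : (ρ j' + 1).choose 2 ≤ (ρ j + h).choose 2 := choose_two_mono (by omega)
    rw [choose_succ_two] at h4
    have h5 := (hρ j' hj').1.1
    omega

end Pool.Agent.SQ
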