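import Mathlib
import Pool.Agent.Lib.MP_69a69c_lc_SW.CoverW
import Pool.Agent.Lib.MP_69a69c_lc_SW.MeasW
import Pool.Agent.Lib.MP_69a69c_lc_SQ.CliqueQ
import Pool.Agent.Lib.MP_69a69c_lc_SQ.AgreeQ
import Pool.Agent.Lib.MP_69a69c_lc_SQ.RowsQ

/-!
# The lower bound for CLIQUE, with parameters
-/

set_option autoImplicit false

namespace Pool.Agent.SQ

open Pool.Agent.LT (Inp)
open Pool.Agent.HM (HeadDet HeadNondet InI)
open Pool.Agent.SW (NoC cnt StarE coverW measW)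

/-- there is a matrix without columns whose number of ones is divisible by `P + 2` -/
private theorem LowerQ_pos {P N M : ℕ} (hM : 1 ≤ M) :
    0 < {X : Fin N → Fin M → Bool | NoC (P + 2) X}.ncard := by
  rw [Set.ncard_pos (Set.toFinite _)]
  refine ⟨fun _ i => decide (i = ⟨0, hM⟩), fun t h => ?_⟩
  have h1 : cnt (fun i : Fin M => decide (i = ⟨0, hM⟩)) = 1 := by
    unfold cnt
    rw [Finset.card_eq_one]
    refine ⟨⟨0, hM⟩, ?_⟩
    ext i
    simp
  rw [h1] at h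
  have h2 := Nat.le_of_dvd (by norm_num) h
  omega

/-- few small sets do not cover -/
private theorem LowerQ_count {P N M m Θ : ℕ} (hM : 1 ≤ M)
    (Z : Fin Θ → Set (Fin N → Fin M → Bool))
    (hZ : ∀ θ, 2 ^ m * (Z θ).ncard ≤ {X : Fin N → Fin M → Bool | NoC (P + 2) X}.ncard)
    (hcov : ∀ X : Fin N → Fin M → Bool, NoC (P + 2) X → ∃ θ, X ∈ Z θ) : 2 ^ m ≤ Θ := by
  have h0 := LowerQ_pos (P := P) (N := N) hM
  set U : Set (Fin N → Fin M → Bool) := {X | NoC (P + 2) X} with hU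
  have h1 : U.ncard ≤ ∑ θ, (Z θ).ncard := by
    classical
    have h2 : U ⊆ ⋃ θ, Z θ := fun X hX => Set.mem_iUnion.2 (hcov X hX)
    calc U.ncard ≤ (⋃ θ, Z θ).ncard := Set.ncard_le_ncard h2 (Set.toFinite _)
      _ ≤ ∑ θ, (Z θ).ncard := Set.ncard_iUnion_le_of_fintype Z
  have h2 : 2 ^ m * U.ncard ≤ Θ * U.ncard := by
    calc 2 ^ m * U.ncard ≤ 2 ^ m * ∑ θ, (Z θ).ncard := Nat.mul_le_mul_left _ h1
      _ = ∑ θ, 2 ^ m * (Z θ).ncard := by rw [Finset.mul_sum]
      _ ≤ ∑ _θ : Fin Θ, U.ncard := Finset.sum_le_sum fun θ _ => hZ θ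
      _ = Θ * U.ncard := by simp
  exact Nat.le_of_mul_le_mul_right h2 h0

/-- `P + 1` players, `M` groups of vertices -/
theorem lowerQ {n s k T S w P M qa qb r0 B κ0 κ m : ℕ} (hP : 1 ≤ P) (hM : 2 * (P + 1) ≤ M)
    (hs : M + 1 ≤ s) (hr1 : 1 ≤ r0) (hU : qb + (s - (M + 1)) ≤ r0) (hr0 : r0 ≤ n)
    (hrows : r0.choose 2 + M * ((qa * (2 * (P + 2)) + 1) * n) ≤ n.choose 2)
    (hS : 1 ≤ S) (hn : n.choose 2 ≤ 2 ^ S) (hw : w ≤ 2 ^ S) (hT : T ≤ 2 ^ (2 * S))
    (hB : 1 ≤ B) (hBq : 4 * B ≤ qa) (hTB : T ≤ B * (2 * (P + 2)) * r0 * κ0)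
    (hκ : 2 * (P + 1) * κ0 ≤ κ * M)
    (hbad : 6 * (κ0 + 2) * (2 * k).descFactorial (P + 1) ≤ M.descFactorial (P + 1))
    (hm : 128 * 16 ^ (P + 1) * m ≤ qa * qb) (hlt : 256 * (k + P + 2) * (κ + 1) * S < m) :
    ¬ HeadNondet (fun x => !clique n s x) k T w ∧ ¬ HeadDet (clique n s) k T w := by
  have key : ¬ HeadNondet (fun x => !clique n s x) k T w := by
    rintro ⟨P0, hP0⟩
    obtain ⟨U, hUs⟩ : ∃ U, U = s - (M + 1) := ⟨_, rfl⟩
    have hsU : s = M + 1 + U := by omega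
    rw [← hUs] at hU
    obtain ⟨ρ, g1, g2, g3, g4, g5⟩ := rowsQ hrows hr1 hr0
    have hMb : M ≤ 2 ^ S := by
      have h1 : M * 1 ≤ M * ((qa * (2 * (P + 2)) + 1) * n) :=
        Nat.mul_le_mul_left _ (Nat.one_le_iff_ne_zero.2
          (Nat.mul_ne_zero (Nat.succ_ne_zero _) (by omega)))
      omega
    have hBr : B * (2 * (P + 2)) * r0 ≤ 2 ^ S := by
      have h1 : B * (2 * (P + 2)) * r0 ≤ M * ((qa * (2 * (P + 2)) + 1) * n) := by
        calc B * (2 * (P + 2)) * r0 ≤ (qa * (2 * (P + 2)) + 1) * n :=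
              Nat.mul_le_mul ((Nat.mul_le_mul_right _ (by omega)).trans (Nat.le_succ _)) hr0
          _ = 1 * ((qa * (2 * (P + 2)) + 1) * n) := (Nat.one_mul _).symm
          _ ≤ M * ((qa * (2 * (P + 2)) + 1) * n) := Nat.mul_le_mul_right _ (by omega)
      omega
    have hB1 : 1 ≤ B * (2 * (P + 2)) * r0 :=
      Nat.one_le_iff_ne_zero.2 (Nat.mul_ne_zero (Nat.mul_ne_zero (by omega) (by omega))
        (by omega))
    obtain ⟨Θ, Tr, hΘ, hst, hacc, hcov⟩ := coverW k (n.choose 2) T S w (r0.choose 2)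
      ((qa * (2 * (P + 2)) + 1) * n) M (P + 1) (B * (2 * (P + 2)) * r0) κ0 κ P0 (by omega)
      (by omega) hS hn hw hT hMb hB1 hBr hTB hκ hbad
    have hle : 2 ^ m ≤ Θ := by
      refine LowerQ_count (P := P) (N := qa * qb) (M := M) (by omega)
        (fun θ => {X | Tr θ (encQ n (P + 2) qa qb U M ρ X)}) (fun θ => ?_) (fun X hX => ?_)
      · obtain ⟨c, hc1, hcB, e, hstar⟩ := hst θ
        refine measW (c := qb * B) hP hM hm ?_ e _ (fun u v hv hR => ?_) (fun X hX => ?_)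
        · calc 4 * (qb * B) = 4 * B * qb := by ring
            _ ≤ qa * qb := Nat.mul_le_mul_right _ hBq
        · refine hstar (encQ n (P + 2) qa qb U M ρ u) (fun j => encQ n (P + 2) qa qb U M ρ (v j))
            (fun j i hi => ?_) hR
          exact encQ_agree g1 g2 g3 (fun j hj => (by omega : qb ≤ r0).trans (g3 j hj)) hcB u (v j)
            (e j) (hv j) i hi
        · have h1 := (hP0 _).2 (hacc θ _ hX)
          rw [Bool.not_eq_true', hsU] at h1
          exact (clique_encQ (by omega) (by omega) g4 (by omega)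
            (fun j hj => hU.trans (g3 j hj)) g5 X).1 h1
      · have h1 := (clique_encQ (by omega) (by omega) g4 (by omega)
            (fun j hj => hU.trans (g3 j hj)) g5 X).2 hX
        rw [← hsU] at h1
        exact hcov _ ((hP0 _).1 (by simp [h1]))
    have h1 : 2 ^ (256 * (k + (P + 1) + 1) * (κ + 1) * S) < 2 ^ m :=
      Nat.pow_lt_pow_right (by norm_num) hlt
    omega
  refine ⟨key, ?_⟩
  rintro ⟨P0, hP0⟩
  refine key ⟨P0.toN false, fun x => ?_⟩
  rw [HM.toN_accepts]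
  constructor
  · intro h
    rw [Bool.not_eq_true'] at h
    have := hP0 x
    rwa [h] at this
  · intro h
    rw [Bool.not_eq_true']
    exact HM.outputs_unique P0 T x (hP0 x) h

end Pool.Agent.SQ
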