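import Mathlib

/-!
# The parameters
-/

set_option autoImplicit false

namespace Pool.Agent.SQ

/-- the conditions of `lowerQ` for `P + 1` players -/
def ParQ (n s k T S P M qa qb r0 B κ0 κ m : ℕ) : Prop :=
  2 * (P + 1) ≤ M ∧ M + 1 ≤ s ∧ 1 ≤ r0 ∧ qb + (s - (M + 1)) ≤ r0 ∧ r0 ≤ n ∧
    r0.choose 2 + M * ((qa * (2 * (P + 2)) + 1) * n) ≤ n.choose 2 ∧ 1 ≤ B ∧ 4 * B ≤ qa ∧
    T ≤ B * (2 * (P + 2)) * r0 * κ0 ∧ 2 * (P + 1) * κ0 ≤ κ * M ∧
    6 * (κ0 + 2) * (2 * k).descFactorial (P + 1) ≤ M.descFactorial (P + 1) ∧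
    128 * 16 ^ (P + 1) * m ≤ qa * qb ∧ 256 * (k + P + 2) * (κ + 1) * S < m

private theorem two_choose (n : ℕ) : 2 * n.choose 2 = n * (n - 1) := by
  rw [Nat.choose_two_right]
  exact Nat.mul_div_cancel' (Nat.even_mul_pred_self n).two_dvd

private theorem rows {n M P qa r0 : ℕ} (hn : 512 ≤ n) (hM : 256 * M ≤ n)
    (hqa : 32 * (M * (P + 2)) * qa ≤ n) (hr0 : r0 = n - n / 4) :
    r0.choose 2 + M * ((qa * (2 * (P + 2)) + 1) * n) ≤ n.choose 2 := by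
  refine Nat.le_of_mul_le_mul_left ?_ (show 0 < 2 by norm_num)
  rw [Nat.mul_add, two_choose, two_choose]
  obtain ⟨w, e, hw, he⟩ : ∃ w e, n = 4 * w + e ∧ e < 4 := ⟨n / 4, n % 4, by omega, by omega⟩
  obtain ⟨Y, hY⟩ : ∃ Y, Y = M * (qa * (2 * (P + 2)) + 1) := ⟨_, rfl⟩
  have hYn : 256 * Y ≤ 17 * n := by
    have h1 : 256 * Y = 16 * (32 * (M * (P + 2)) * qa) + 256 * M := by rw [hY]; ring
    omega
  have h2 : M * ((qa * (2 * (P + 2)) + 1) * n) = Y * n := by rw [hY]; ring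
  rw [h2]
  have h3 : 128 * (2 * (Y * n)) ≤ 128 * (w * (7 * w - 1)) := by
    obtain ⟨v, hv⟩ : ∃ v, w = v + 2 := ⟨w - 2, by omega⟩
    have h4 : n ≤ 4 * w + 3 := by omega
    have h5 : 7 * w - 1 = 7 * v + 13 := by omega
    calc 128 * (2 * (Y * n)) = 256 * Y * n := by ring
      _ ≤ 17 * n * n := Nat.mul_le_mul_right _ hYn
      _ ≤ 17 * (4 * w + 3) * (4 * w + 3) := by gcongr
      _ ≤ 128 * (w * (7 * w - 1)) := by
        rw [h5, hv]
        nlinarith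
  have h4 : 2 * (Y * n) ≤ w * (7 * w - 1) := Nat.le_of_mul_le_mul_left h3 (by norm_num)
  have hr : r0 = 3 * w + e := by omega
  have h5 : r0 * (r0 - 1) + w * (7 * w - 1) ≤ n * (n - 1) := by
    obtain ⟨v, hv⟩ : ∃ v, w = v + 1 := ⟨w - 1, by omega⟩
    have h6 : r0 - 1 = 3 * v + 2 + e := by omega
    have h7 : 7 * w - 1 = 7 * v + 6 := by omega
    have h8 : n - 1 = 4 * v + 3 + e := by omega
    rw [h6, h7, h8, hr, hw, hv]
    nlinarith
  omega

private theorem par_of {n s k T S P M : ℕ} (h1 : 2 * (P + 1) ≤ M) (hs : M + 1 ≤ s)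
    (h2s : 2 * s ≤ n + 1) (hMn : 128 * (M * (P + 2)) ≤ n) (hT : n.choose 2 ≤ T) (hS : 1 ≤ S)
    (hbad : 4608 * M * T * (2 * k).descFactorial (P + 1) ≤
      n.choose 2 * M.descFactorial (P + 1))
    (hm : 2 ^ 32 * 16 ^ (P + 1) * (P + 1) * (P + 2) * (k + P + 2) * M * S * T ≤
      (n.choose 2) ^ 2) :
    ∃ qa qb r0 B κ0 κ m : ℕ, ParQ n s k T S P M qa qb r0 B κ0 κ m := by
  unfold ParQ
  have hM2 : 2 ≤ M := by omega
  have hD2 : M * 2 ≤ M * (P + 2) := Nat.mul_le_mul_left _ (by omega)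
  have hD3 : 2 * (P + 2) ≤ M * (P + 2) := Nat.mul_le_mul_right _ hM2
  have hn : 512 ≤ n := by omega
  have hM256 : 256 * M ≤ n := by omega
  have hNa : 2 * n.choose 2 ≤ n * n := by
    rw [two_choose]
    exact Nat.mul_le_mul_left _ (Nat.sub_le _ _)
  have hNb : n * n ≤ 4 * n.choose 2 := by
    have h3 : 4 * n.choose 2 = 2 * (n * (n - 1)) := by rw [← two_choose]; ring
    rw [h3]
    calc n * n ≤ n * (2 * (n - 1)) := Nat.mul_le_mul_left _ (by omega)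
      _ = 2 * (n * (n - 1)) := by ring
  obtain ⟨qa, hqa⟩ : ∃ qa, qa = n / (32 * (M * (P + 2))) := ⟨_, rfl⟩
  have hqa4 : 4 ≤ qa := by
    rw [hqa, Nat.le_div_iff_mul_le (by omega)]
    omega
  have hqa1 : 32 * (M * (P + 2)) * qa ≤ n := by
    rw [hqa]
    exact Nat.mul_div_le _ _
  have hqa2 : n ≤ 40 * ((M * (P + 2)) * qa) := by
    have h3 : n < 32 * (M * (P + 2)) * (qa + 1) := by
      rw [hqa]
      exact Nat.lt_mul_div_succ _ (by omega)
    have h4 : 32 * (M * (P + 2)) * (qa + 1) =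
        32 * ((M * (P + 2)) * qa) + 8 * ((M * (P + 2)) * 4) := by ring
    have h5 : (M * (P + 2)) * 4 ≤ (M * (P + 2)) * qa := Nat.mul_le_mul_left _ hqa4
    omega
  obtain ⟨qb, hqb⟩ : ∃ qb, qb = n / 8 := ⟨_, rfl⟩
  have hqb1 : n ≤ 9 * qb := by omega
  obtain ⟨r0, hr0⟩ : ∃ r0, r0 = n - n / 4 := ⟨_, rfl⟩
  have hr01 : 3 * n ≤ 4 * r0 := by omega
  have hr02 : r0 ≤ n := by omega
  obtain ⟨B, hB⟩ : ∃ B, B = qa / 4 := ⟨_, rfl⟩
  have hB1 : 1 ≤ B := by omega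
  have hB4 : 4 * B ≤ qa := by omega
  have hB8 : qa ≤ 8 * B := by omega
  obtain ⟨G, hG⟩ : ∃ G, G = B * (2 * (P + 2)) * r0 := ⟨_, rfl⟩
  have hG0 : 0 < G := by
    rw [hG]
    have : 0 < r0 := by omega
    positivity
  have hNG : n.choose 2 ≤ 128 * (M * G) := by
    have h3 : 6 * n.choose 2 ≤ 640 * (M * G) := by
      calc 6 * n.choose 2 = 3 * (2 * n.choose 2) := by ring
        _ ≤ 3 * (n * n) := Nat.mul_le_mul_left _ hNa
        _ = 3 * n * n := by ring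
        _ ≤ 4 * r0 * (40 * ((M * (P + 2)) * (8 * B))) := by
            refine Nat.mul_le_mul hr01 (hqa2.trans ?_)
            exact Nat.mul_le_mul_left _ (Nat.mul_le_mul_left _ hB8)
        _ = 640 * (M * G) := by rw [hG]; ring
    omega
  have hGN : G ≤ n.choose 2 := by
    have h3 : 128 * G ≤ 4 * n.choose 2 := by
      calc 128 * G = 64 * (P + 2) * (4 * B) * r0 := by rw [hG]; ring
        _ ≤ 64 * (P + 2) * qa * r0 :=
            Nat.mul_le_mul_right _ (Nat.mul_le_mul_left _ hB4)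
        _ = 32 * (2 * (P + 2)) * qa * r0 := by ring
        _ ≤ 32 * (M * (P + 2)) * qa * r0 :=
            Nat.mul_le_mul_right _ (Nat.mul_le_mul_right _ (Nat.mul_le_mul_left _ hD3))
        _ ≤ n * n := Nat.mul_le_mul hqa1 hr02
        _ ≤ 4 * n.choose 2 := hNb
    omega
  obtain ⟨κ0, hκ0⟩ : ∃ κ0, κ0 = T / G + 1 := ⟨_, rfl⟩
  have hκ1 : 1 ≤ κ0 := by
    rw [hκ0]
    exact Nat.succ_le_succ (Nat.zero_le _)
  have hTκ : T ≤ G * κ0 := by
    rw [hκ0]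
    exact (Nat.lt_mul_div_succ _ hG0).le
  have hGκ : G * κ0 ≤ 2 * T := by
    have h3 : G * (T / G) ≤ T := Nat.mul_div_le _ _
    have h4 : G * κ0 = G * (T / G) + G := by rw [hκ0]; ring
    omega
  have hNκ : n.choose 2 * κ0 ≤ 256 * (M * T) := by
    calc n.choose 2 * κ0 ≤ 128 * (M * G) * κ0 := Nat.mul_le_mul_right _ hNG
      _ = 128 * M * (G * κ0) := by ring
      _ ≤ 128 * M * (2 * T) := Nat.mul_le_mul_left _ hGκ
      _ = 256 * (M * T) := by ring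
  obtain ⟨κ, hκ⟩ : ∃ κ, κ = 2 * (P + 1) * κ0 / M + 1 := ⟨_, rfl⟩
  have hκa : 2 * (P + 1) * κ0 ≤ κ * M := by
    rw [hκ, Nat.mul_comm _ M]
    exact (Nat.lt_mul_div_succ _ (by omega)).le
  have hκb : M * (κ + 1) ≤ 2 * (P + 1) * κ0 + 2 * M := by
    have h3 : M * (2 * (P + 1) * κ0 / M) ≤ 2 * (P + 1) * κ0 := Nat.mul_div_le _ _
    have h4 : M * (κ + 1) = M * (2 * (P + 1) * κ0 / M) + 2 * M := by rw [hκ]; ring
    omega
  have hκc : n.choose 2 * (κ + 1) ≤ 514 * ((P + 1) * T) := by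
    refine Nat.le_of_mul_le_mul_left ?_ (show 0 < M by omega)
    calc M * (n.choose 2 * (κ + 1)) = n.choose 2 * (M * (κ + 1)) := by ring
      _ ≤ n.choose 2 * (2 * (P + 1) * κ0 + 2 * M) := Nat.mul_le_mul_left _ hκb
      _ = 2 * (P + 1) * (n.choose 2 * κ0) + 2 * M * n.choose 2 := by ring
      _ ≤ 2 * (P + 1) * (256 * (M * T)) + 2 * M * (1 * T) := by
          refine Nat.add_le_add (Nat.mul_le_mul_left _ hNκ) (Nat.mul_le_mul_left _ ?_)
          omega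
      _ ≤ 2 * (P + 1) * (256 * (M * T)) + 2 * M * ((P + 1) * T) := by
          refine Nat.add_le_add_left (Nat.mul_le_mul_left _ (Nat.mul_le_mul_right _ ?_)) _
          omega
      _ = M * (514 * ((P + 1) * T)) := by ring
  obtain ⟨Q, hQ⟩ : ∃ Q, Q = 16 ^ (P + 1) := ⟨_, rfl⟩
  have hQ1 : 0 < Q := by rw [hQ]; positivity
  obtain ⟨m, hmdef⟩ : ∃ m, m = qa * qb / (128 * Q) := ⟨_, rfl⟩
  have hN0 : 0 < n.choose 2 := Nat.choose_pos (by omega)
  refine ⟨qa, qb, r0, B, κ0, κ, m, h1, hs, by omega, by omega, hr02,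
    rows hn hM256 hqa1 hr0, hB1, hB4, ?_, hκa, ?_, ?_, ?_⟩
  · rw [← hG]
    exact hTκ
  · refine Nat.le_of_mul_le_mul_left ?_ hN0
    generalize (2 * k).descFactorial (P + 1) = D1 at *
    generalize M.descFactorial (P + 1) = D2 at *
    have h3 : n.choose 2 * (κ0 + 2) ≤ 768 * (M * T) := by
      calc n.choose 2 * (κ0 + 2) ≤ n.choose 2 * (3 * κ0) := Nat.mul_le_mul_left _ (by omega)
        _ = 3 * (n.choose 2 * κ0) := by ring
        _ ≤ 3 * (256 * (M * T)) := Nat.mul_le_mul_left _ hNκ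
        _ = 768 * (M * T) := by ring
    calc n.choose 2 * (6 * (κ0 + 2) * D1) = 6 * D1 * (n.choose 2 * (κ0 + 2)) := by ring
      _ ≤ 6 * D1 * (768 * (M * T)) := Nat.mul_le_mul_left _ h3
      _ = 4608 * M * T * D1 := by ring
      _ ≤ n.choose 2 * D2 := hbad
  · rw [← hQ, hmdef]
    exact Nat.mul_div_le _ _
  · rw [← hQ] at hm
    have hq : n.choose 2 ≤ 180 * ((M * (P + 2)) * (qa * qb)) := by
      have h3 : 2 * n.choose 2 ≤ 360 * ((M * (P + 2)) * (qa * qb)) := by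
        calc 2 * n.choose 2 ≤ n * n := hNa
          _ ≤ 40 * ((M * (P + 2)) * qa) * (9 * qb) := Nat.mul_le_mul hqa2 hqb1
          _ = 360 * ((M * (P + 2)) * (qa * qb)) := by ring
      omega
    rw [hmdef, Nat.lt_iff_add_one_le, Nat.le_div_iff_mul_le (by omega)]
    refine Nat.le_of_mul_le_mul_left ?_ (show 0 < 180 * (M * (P + 2)) by positivity)
    refine le_trans ?_ (hq.trans (le_of_eq (by ring)))
    refine Nat.le_of_mul_le_mul_left ?_ hN0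
    have h3 : 1 ≤ (k + P + 2) * (κ + 1) * S := by
      have h4 : 0 < (k + P + 2) * (κ + 1) * S := by positivity
      exact h4
    calc n.choose 2 * (180 * (M * (P + 2)) *
          ((256 * (k + P + 2) * (κ + 1) * S + 1) * (128 * Q)))
        = 23040 * (n.choose 2 * (M * (P + 2)) * Q) *
          (256 * ((k + P + 2) * (κ + 1) * S) + 1) := by ring
      _ ≤ 23040 * (n.choose 2 * (M * (P + 2)) * Q) * (257 * ((k + P + 2) * (κ + 1) * S)) :=
          Nat.mul_le_mul_left _ (by omega)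
      _ = 5921280 * ((M * (P + 2)) * Q * (k + P + 2) * S) * (n.choose 2 * (κ + 1)) := by ring
      _ ≤ 5921280 * ((M * (P + 2)) * Q * (k + P + 2) * S) * (514 * ((P + 1) * T)) :=
          Nat.mul_le_mul_left _ hκc
      _ = 3043537920 * (Q * (P + 1) * (P + 2) * (k + P + 2) * M * S * T) := by ring
      _ ≤ 2 ^ 32 * (Q * (P + 1) * (P + 2) * (k + P + 2) * M * S * T) :=
          Nat.mul_le_mul_right _ (by norm_num)
      _ = 2 ^ 32 * Q * (P + 1) * (P + 2) * (k + P + 2) * M * S * T := by ring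
      _ ≤ (n.choose 2) ^ 2 := hm
      _ = n.choose 2 * n.choose 2 := by ring

/-- few heads: `2 * k + 2` players -/
theorem numFewQ : ∃ C : ℕ, ∀ n s k T S : ℕ, 2 ≤ n → n.choose 2 ≤ T → 1 ≤ S → 4 * k + 5 ≤ s →
    2 * s ≤ n + 1 → C ^ (k + 1) * T * S ≤ (n.choose 2) ^ 2 →
    ∃ M qa qb r0 B κ0 κ m : ℕ, ParQ n s k T S (2 * k + 1) M qa qb r0 B κ0 κ m := by
  refine ⟨2 ^ 60, fun n s k T S hn hT hS hs h2s h => ?_⟩
  obtain ⟨A, hA⟩ : ∃ A, A = 2 ^ (k + 1) := ⟨_, rfl⟩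
  have hA2 : 2 ≤ A := by
    rw [hA, pow_succ]
    have := Nat.one_le_two_pow (n := k)
    omega
  have hkA : k + 1 ≤ A := by
    rw [hA]
    exact Nat.lt_two_pow_self.le
  have hC : (2 ^ 60) ^ (k + 1) = A ^ 60 := by rw [hA, ← pow_mul, ← pow_mul, Nat.mul_comm]
  rw [hC] at h
  have hN0 : 0 < n.choose 2 := Nat.choose_pos hn
  have hAN : A ^ 60 ≤ n.choose 2 := by
    refine Nat.le_of_mul_le_mul_right ?_ hN0
    calc A ^ 60 * n.choose 2 ≤ A ^ 60 * T := Nat.mul_le_mul_left _ hT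
      _ = A ^ 60 * T * 1 := by ring
      _ ≤ A ^ 60 * T * S := Nat.mul_le_mul_left _ hS
      _ ≤ (n.choose 2) ^ 2 := h
      _ = n.choose 2 * n.choose 2 := by ring
  have hAn : A ^ 30 ≤ n := by
    have h3 : (A ^ 30) ^ 2 ≤ n ^ 2 := by
      calc (A ^ 30) ^ 2 = A ^ 60 := by ring
        _ ≤ n.choose 2 := hAN
        _ ≤ 2 * n.choose 2 := by omega
        _ = n * (n - 1) := two_choose n
        _ ≤ n * n := Nat.mul_le_mul_left _ (Nat.sub_le _ _)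
        _ = n ^ 2 := by ring
    exact (Nat.pow_le_pow_iff_left (by norm_num)).mp h3
  refine ⟨4 * (k + 1), par_of (by omega) (by omega) h2s ?_ hT hS ?_ ?_⟩
  · calc 128 * (4 * (k + 1) * (2 * k + 1 + 2)) ≤ 128 * (4 * (k + 1) * (4 * (k + 1))) := by
          refine Nat.mul_le_mul_left _ (Nat.mul_le_mul_left _ ?_)
          omega
      _ = 2 ^ 11 * ((k + 1) * (k + 1)) := by ring
      _ ≤ 2 ^ 11 * (A * A) := Nat.mul_le_mul_left _ (Nat.mul_le_mul hkA hkA)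
      _ ≤ A ^ 28 * (A * A) := by
          refine Nat.mul_le_mul_right _ ?_
          calc 2 ^ 11 ≤ 2 ^ 28 := by norm_num
            _ ≤ A ^ 28 := Nat.pow_le_pow_left hA2 _
      _ = A ^ 30 := by ring
      _ ≤ n := hAn
  · have h3 : (2 * k).descFactorial (2 * k + 1 + 1) = 0 :=
      Nat.descFactorial_eq_zero_iff_lt.mpr (by omega)
    rw [h3, Nat.mul_zero]
    exact Nat.zero_le _
  · have h3 : 16 ^ (2 * k + 1 + 1) = A ^ 8 := by
      rw [hA, ← pow_mul, show (16 : ℕ) = 2 ^ 4 by norm_num, ← pow_mul]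
      congr 1
      ring
    rw [h3]
    calc 2 ^ 32 * A ^ 8 * (2 * k + 1 + 1) * (2 * k + 1 + 2) * (k + (2 * k + 1) + 2) *
          (4 * (k + 1)) * S * T
        = 2 ^ 32 * A ^ 8 * (24 * ((k + 1) * (k + 1) * (k + 1)) * (2 * k + 3)) * (T * S) := by
          ring
      _ ≤ 2 ^ 32 * A ^ 8 * (32 * (A * A * A) * (4 * A)) * (T * S) := by
          refine Nat.mul_le_mul_right _ (Nat.mul_le_mul_left _ (Nat.mul_le_mul ?_ (by omega)))
          exact Nat.mul_le_mul (by norm_num) (Nat.mul_le_mul (Nat.mul_le_mul hkA hkA) hkA)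
      _ = 2 ^ 39 * (A ^ 12 * (T * S)) := by ring
      _ ≤ A ^ 48 * (A ^ 12 * (T * S)) := by
          refine Nat.mul_le_mul_right _ ?_
          calc 2 ^ 39 ≤ 2 ^ 48 := by norm_num
            _ ≤ A ^ 48 := Nat.pow_le_pow_left hA2 _
      _ = A ^ 60 * T * S := by ring
      _ ≤ (n.choose 2) ^ 2 := h

private theorem exists_pow {n k p T : ℕ} (hn : 1 ≤ n) (hk : 1 ≤ k) (hp : 1 ≤ p) (hT : n ≤ T) :
    ∃ M : ℕ, 2 * (p + 1) ≤ M ∧ 2 ^ (9 * (p + 1)) * T * k ^ (p + 1) ≤ n * M ^ p ∧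
      n * M ^ p ≤ 2 ^ (10 * (p + 1) ^ 2) * T * k ^ (p + 1) := by
  classical
  have hex : ∃ g : ℕ, 2 * (p + 1) ≤ 2 ^ g ∧
      2 ^ (9 * (p + 1)) * T * k ^ (p + 1) ≤ n * (2 ^ g) ^ p := by
    refine ⟨2 * (p + 1) + 2 ^ (9 * (p + 1)) * T * k ^ (p + 1), ?_, ?_⟩
    · exact (Nat.le_add_right _ _).trans Nat.lt_two_pow_self.le
    · generalize 2 ^ (9 * (p + 1)) * T * k ^ (p + 1) = X
      calc X ≤ 2 * (p + 1) + X := Nat.le_add_left _ _
        _ ≤ 2 ^ (2 * (p + 1) + X) := Nat.lt_two_pow_self.le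
        _ ≤ (2 ^ (2 * (p + 1) + X)) ^ p := Nat.le_self_pow (by omega) _
        _ = 1 * (2 ^ (2 * (p + 1) + X)) ^ p := by ring
        _ ≤ n * (2 ^ (2 * (p + 1) + X)) ^ p := Nat.mul_le_mul_right _ hn
  obtain ⟨g, hg, hmin⟩ : ∃ g : ℕ, (2 * (p + 1) ≤ 2 ^ g ∧
      2 ^ (9 * (p + 1)) * T * k ^ (p + 1) ≤ n * (2 ^ g) ^ p) ∧ ∀ g' < g, ¬(2 * (p + 1) ≤ 2 ^ g' ∧
      2 ^ (9 * (p + 1)) * T * k ^ (p + 1) ≤ n * (2 ^ g') ^ p) :=
    ⟨Nat.find hex, Nat.find_spec hex, fun g' hg' => Nat.find_min hex hg'⟩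
  refine ⟨2 ^ g, hg.1, hg.2, ?_⟩
  have hg0 : g ≠ 0 := by
    rintro rfl
    have := hg.1
    omega
  obtain ⟨g', rfl⟩ := Nat.exists_eq_succ_of_ne_zero hg0
  have hm := hmin g' (Nat.lt_succ_self _)
  have hk1 : 1 ≤ k ^ (p + 1) := Nat.one_le_pow _ _ hk
  by_cases hc : 2 * (p + 1) ≤ 2 ^ g'
  · have h3 : n * (2 ^ g') ^ p ≤ 2 ^ (9 * (p + 1)) * T * k ^ (p + 1) := by
      by_contra hcon
      exact hm ⟨hc, by omega⟩
    calc n * (2 ^ g'.succ) ^ p = 2 ^ p * (n * (2 ^ g') ^ p) := by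
          rw [Nat.succ_eq_add_one, pow_succ, mul_pow]; ring
      _ ≤ 2 ^ p * (2 ^ (9 * (p + 1)) * T * k ^ (p + 1)) := Nat.mul_le_mul_left _ h3
      _ = 2 ^ (p + 9 * (p + 1)) * (T * k ^ (p + 1)) := by rw [pow_add]; ring
      _ ≤ 2 ^ (10 * (p + 1) ^ 2) * (T * k ^ (p + 1)) :=
          Nat.mul_le_mul_right _ (Nat.pow_le_pow_right (by norm_num) (by nlinarith))
      _ = 2 ^ (10 * (p + 1) ^ 2) * T * k ^ (p + 1) := by ring
  · have h4 : 2 ^ g'.succ ≤ 4 * (p + 1) := by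
      rw [Nat.succ_eq_add_one, pow_succ]
      omega
    have h5 : 4 * (p + 1) ≤ 2 ^ (2 + (p + 1)) := by
      rw [pow_add]
      exact Nat.mul_le_mul_left _ Nat.lt_two_pow_self.le
    calc n * (2 ^ g'.succ) ^ p ≤ T * (2 ^ (2 + (p + 1))) ^ p :=
          Nat.mul_le_mul hT (Nat.pow_le_pow_left (h4.trans h5) _)
      _ = 2 ^ ((2 + (p + 1)) * p) * (T * 1) := by rw [pow_mul]; ring
      _ ≤ 2 ^ (10 * (p + 1) ^ 2) * (T * k ^ (p + 1)) := by
          refine Nat.mul_le_mul (Nat.pow_le_pow_right (by norm_num) (by nlinarith)) ?_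
          exact Nat.mul_le_mul_left _ hk1
      _ = 2 ^ (10 * (p + 1) ^ 2) * T * k ^ (p + 1) := by ring

/-- many heads: `p` players -/
theorem numManyQ : ∃ C : ℕ, ∀ n s k p T S : ℕ, 2 ≤ n → 1 ≤ k → 2 ≤ p → n.choose 2 ≤ T →
    1 ≤ S → 2 * s ≤ n + 1 → C ^ (p ^ 2) * k ^ p * T ≤ n.choose 2 * s ^ (p - 1) →
    C ^ (p ^ 2) * k ^ (2 * p - 1) * T ^ p * S ^ (p - 1) ≤ (n.choose 2) ^ (2 * p - 1) →
    ∃ M qa qb r0 B κ0 κ m : ℕ, ParQ n s k T S (p - 1) M qa qb r0 B κ0 κ m := by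
  refine ⟨2 ^ 34, fun n s k p T S hn hk hp hT hS h2s hsp h => ?_⟩
  obtain ⟨P, rfl⟩ : ∃ P, p = P + 1 := ⟨p - 1, by omega⟩
  have hP1 : 1 ≤ P := by omega
  have e1 : 2 * (P + 1) - 1 = 2 * P + 1 := by omega
  have e2 : P + 1 - 1 = P := by omega
  rw [e1, e2] at h
  rw [e2] at hsp
  rw [e2]
  have hN0 : 0 < n.choose 2 := Nat.choose_pos hn
  obtain ⟨M, hg1, hg2, hg3⟩ := exists_pow (p := P) hN0 hk hP1 hT
  have hM0 : 0 < M := by omega
  have e5 : P + 1 ≤ 2 ^ (P + 1) := Nat.lt_two_pow_self.le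
  have e5' : P + 2 ≤ 2 ^ (P + 1) := Nat.lt_two_pow_self
  -- the size of the clique
  have hMs : 128 * (M * (P + 2)) ≤ s := by
    have h3 : (128 * (M * (P + 2))) ^ P ≤ s ^ P := by
      refine Nat.le_of_mul_le_mul_left ?_ hN0
      calc n.choose 2 * (128 * (M * (P + 2))) ^ P
          = (128 * (P + 2)) ^ P * (n.choose 2 * M ^ P) := by
            rw [show 128 * (M * (P + 2)) = (128 * (P + 2)) * M by ring, mul_pow]; ring
        _ ≤ (2 ^ (7 + (P + 1))) ^ P * (2 ^ (10 * (P + 1) ^ 2) * T * k ^ (P + 1)) := by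
            refine Nat.mul_le_mul (Nat.pow_le_pow_left ?_ _) hg3
            rw [pow_add]
            exact Nat.mul_le_mul (by norm_num) e5'
        _ = 2 ^ ((7 + (P + 1)) * P + 10 * (P + 1) ^ 2) * (k ^ (P + 1) * T) := by
            rw [← pow_mul, pow_add]; ring
        _ ≤ 2 ^ (34 * (P + 1) ^ 2) * (k ^ (P + 1) * T) :=
            Nat.mul_le_mul_right _ (Nat.pow_le_pow_right (by norm_num) (by nlinarith))
        _ = (2 ^ 34) ^ ((P + 1) ^ 2) * k ^ (P + 1) * T := by rw [← pow_mul]; ring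
        _ ≤ n.choose 2 * s ^ P := hsp
    exact (Nat.pow_le_pow_iff_left (by omega)).mp h3
  have hMM : M * 1 ≤ M * (P + 2) := Nat.mul_le_mul_left _ (by omega)
  -- the main bound
  have hmain : 2 ^ (24 * (P + 1)) * k * M * S * T ≤ (n.choose 2) ^ 2 := by
    have h3 : n.choose 2 * (2 ^ (24 * (P + 1)) * k * M * S * T) ^ P ≤
        n.choose 2 * ((n.choose 2) ^ 2) ^ P := by
      calc n.choose 2 * (2 ^ (24 * (P + 1)) * k * M * S * T) ^ P
          = 2 ^ (24 * (P + 1) * P) * (k ^ P * S ^ P * T ^ P) * (n.choose 2 * M ^ P) := by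
            rw [mul_pow, mul_pow, mul_pow, mul_pow, ← pow_mul 2 (24 * (P + 1)) P]; ring
        _ ≤ 2 ^ (24 * (P + 1) ^ 2) * (k ^ P * S ^ P * T ^ P) *
            (2 ^ (10 * (P + 1) ^ 2) * T * k ^ (P + 1)) := by
            refine Nat.mul_le_mul (Nat.mul_le_mul_right _ ?_) hg3
            exact Nat.pow_le_pow_right (by norm_num) (by nlinarith)
        _ = (2 ^ 34) ^ ((P + 1) ^ 2) * k ^ (2 * P + 1) * T ^ (P + 1) * S ^ P := by
            have e3 : (2 ^ 34) ^ ((P + 1) ^ 2) =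
                2 ^ (24 * (P + 1) ^ 2) * 2 ^ (10 * (P + 1) ^ 2) := by
              rw [← pow_add, ← pow_mul]; congr 1; ring
            rw [e3]
            ring
        _ ≤ (n.choose 2) ^ (2 * P + 1) := h
        _ = n.choose 2 * ((n.choose 2) ^ 2) ^ P := by ring
    have h4 := Nat.le_of_mul_le_mul_left h3 hN0
    exact (Nat.pow_le_pow_iff_left (by omega)).mp h4
  refine ⟨M, par_of hg1 (by omega) h2s (by omega) hT hS ?_ ?_⟩
  · have hD1 : (2 * k).descFactorial (P + 1) ≤ (2 * k) ^ (P + 1) :=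
      Nat.descFactorial_le_pow _ _
    have hD2 : (M + 1 - (P + 1)) ^ (P + 1) ≤ M.descFactorial (P + 1) :=
      Nat.pow_sub_le_descFactorial _ _
    have hD3 : M ^ (P + 1) ≤ 2 ^ (P + 1) * M.descFactorial (P + 1) := by
      calc M ^ (P + 1) ≤ (2 * (M + 1 - (P + 1))) ^ (P + 1) :=
            Nat.pow_le_pow_left (by omega) _
        _ = 2 ^ (P + 1) * (M + 1 - (P + 1)) ^ (P + 1) := mul_pow _ _ _
        _ ≤ 2 ^ (P + 1) * M.descFactorial (P + 1) := Nat.mul_le_mul_left _ hD2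
    refine Nat.le_of_mul_le_mul_left ?_ (show 0 < 2 ^ (P + 1) by positivity)
    have e3 : 4608 * (2 ^ (P + 1) * 2 ^ (P + 1)) ≤ 2 ^ (9 * (P + 1)) := by
      have e4 : 2 ^ (9 * (P + 1)) = 2 ^ (7 * (P + 1)) * (2 ^ (P + 1) * 2 ^ (P + 1)) := by
        rw [← pow_add, ← pow_add]; congr 1; ring
      rw [e4]
      refine Nat.mul_le_mul_right _ ?_
      calc 4608 ≤ 2 ^ 14 := by norm_num
        _ ≤ 2 ^ (7 * (P + 1)) := Nat.pow_le_pow_right (by norm_num) (by omega)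
    calc 2 ^ (P + 1) * (4608 * M * T * (2 * k).descFactorial (P + 1))
        ≤ 2 ^ (P + 1) * (4608 * M * T * (2 * k) ^ (P + 1)) :=
          Nat.mul_le_mul_left _ (Nat.mul_le_mul_left _ hD1)
      _ = 4608 * (2 ^ (P + 1) * 2 ^ (P + 1)) * (M * T * k ^ (P + 1)) := by
          rw [mul_pow]; ring
      _ ≤ 2 ^ (9 * (P + 1)) * (M * T * k ^ (P + 1)) := Nat.mul_le_mul_right _ e3
      _ = M * (2 ^ (9 * (P + 1)) * T * k ^ (P + 1)) := by ring
      _ ≤ M * (n.choose 2 * M ^ P) := Nat.mul_le_mul_left _ hg2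
      _ = n.choose 2 * M ^ (P + 1) := by ring
      _ ≤ n.choose 2 * (2 ^ (P + 1) * M.descFactorial (P + 1)) := Nat.mul_le_mul_left _ hD3
      _ = 2 ^ (P + 1) * (n.choose 2 * M.descFactorial (P + 1)) := by ring
  · have e6 : k + P + 2 ≤ 2 * k * (P + 1) := by
      obtain ⟨a, rfl⟩ := Nat.exists_eq_add_of_le hk
      obtain ⟨b, rfl⟩ := Nat.exists_eq_add_of_le hP1
      have e7 : 2 * (1 + a) * (1 + b + 1) = 2 * (a * b) + 4 * a + 2 * b + 4 := by ring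
      rw [e7]
      omega
    have e7 : 16 ^ (P + 1) = 2 ^ (4 * (P + 1)) := by
      rw [show (16 : ℕ) = 2 ^ 4 by norm_num, ← pow_mul]
    calc 2 ^ 32 * 16 ^ (P + 1) * (P + 1) * (P + 2) * (k + P + 2) * M * S * T
        = 2 ^ 32 * 16 ^ (P + 1) * ((P + 1) * (P + 2) * (k + P + 2)) * (M * S * T) := by ring
      _ ≤ 2 ^ 32 * 16 ^ (P + 1) * (2 ^ (P + 1) * 2 ^ (P + 1) * (2 * k * 2 ^ (P + 1))) *
            (M * S * T) := by
          refine Nat.mul_le_mul_right _ (Nat.mul_le_mul_left _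
            (Nat.mul_le_mul (Nat.mul_le_mul e5 e5') ?_))
          exact e6.trans (Nat.mul_le_mul_left _ e5)
      _ = 2 ^ (33 + 7 * (P + 1)) * (k * M * S * T) := by
          have e8 : 2 ^ (33 + 7 * (P + 1)) =
              2 ^ 32 * 2 ^ (4 * (P + 1)) * (2 ^ (P + 1) * 2 ^ (P + 1) * 2 ^ (P + 1)) * 2 := by
            rw [← pow_add, ← pow_add, ← pow_add, ← pow_add, ← pow_succ]; congr 1; ring
          rw [e7, e8]
          ring
      _ ≤ 2 ^ (24 * (P + 1)) * (k * M * S * T) :=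
          Nat.mul_le_mul_right _ (Nat.pow_le_pow_right (by norm_num) (by omega))
      _ = 2 ^ (24 * (P + 1)) * k * M * S * T := by ring
      _ ≤ (n.choose 2) ^ 2 := hmain

end Pool.Agent.SQ
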