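import Mathlib
import Pool.Agent.Lib.MP_69a69c_lc_SH.OSim
import Pool.Agent.Lib.MP_69a69c_lc_SQ.LowerQ
import Pool.Agent.Lib.MP_69a69c_lc_SQ.NumQ

/-!
# CLIQUE, stack machines with many heads, and sparse oracles
-/

set_option autoImplicit false

namespace Pool.Agent.SQ

open Pool.Agent.LT (Inp)
open Pool.Agent.HM (HeadDet HeadNondet)
open Pool.Agent.StackO (AtMostPerLength)
open Pool.Agent.SH (HeadDetO HeadNondetO headDet_of_O headNondet_of_O)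

/-- without oracle -/
theorem lowerC : ∃ C : ℕ, (∀ n s k T S w : ℕ, 2 ≤ n → n.choose 2 ≤ T → 1 ≤ S →
      n.choose 2 ≤ 2 ^ S → w ≤ 2 ^ S → 4 * k + 5 ≤ s → 2 * s ≤ n + 1 →
      C ^ (k + 1) * T * S ≤ (n.choose 2) ^ 2 →
      ¬ HeadNondet (fun x => !clique n s x) k T w ∧ ¬ HeadDet (clique n s) k T w) ∧
    ∀ n s k p T S w : ℕ, 2 ≤ n → 1 ≤ k → 2 ≤ p → n.choose 2 ≤ T → 1 ≤ S →
      n.choose 2 ≤ 2 ^ S → w ≤ 2 ^ S → 2 * s ≤ n + 1 →
      C ^ (p ^ 2) * k ^ p * T ≤ n.choose 2 * s ^ (p - 1) →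
      C ^ (p ^ 2) * k ^ (2 * p - 1) * T ^ p * S ^ (p - 1) ≤ (n.choose 2) ^ (2 * p - 1) →
      ¬ HeadNondet (fun x => !clique n s x) k T w ∧ ¬ HeadDet (clique n s) k T w := by
  obtain ⟨C1, h1⟩ := numFewQ
  obtain ⟨C2, h2⟩ := numManyQ
  refine ⟨C1 + C2 + 1, fun n s k T S w hn hT hS hnS hw hk hs hC => ?_,
    fun n s k p T S w hn hk hp hT hS hnS hw hs hC1 hC2 => ?_⟩
  · have hTS : T ≤ 2 ^ (2 * S) := by
      calc T = 1 * T * 1 := by ring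
        _ ≤ (C1 + C2 + 1) ^ (k + 1) * T * S :=
            Nat.mul_le_mul (Nat.mul_le_mul_right _ (Nat.one_le_pow _ _ (by omega))) hS
        _ ≤ (n.choose 2) ^ 2 := hC
        _ ≤ (2 ^ S) ^ 2 := Nat.pow_le_pow_left hnS 2
        _ = 2 ^ (2 * S) := by rw [← pow_mul, mul_comm]
    obtain ⟨M, qa, qb, r0, B, κ0, κ, m, a1, a2, a3, a4, a5, a6, a7, a8, a9, a10, a11, a12, a13⟩ :=
      h1 n s k T S hn hT hS hk hs (le_trans (by gcongr; omega) hC)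
    exact lowerQ (by omega) a1 a2 a3 a4 a5 a6 hS hnS hw hTS a7 a8 a9 a10 a11 a12 a13
  · have hN : 1 ≤ n.choose 2 := Nat.choose_pos hn
    have hTS : T ≤ 2 ^ (2 * S) := by
      by_contra hcon
      rw [not_le, two_mul, pow_add] at hcon
      have h3 : (n.choose 2) ^ 2 < T := by
        calc (n.choose 2) ^ 2 = n.choose 2 * n.choose 2 := sq _
          _ ≤ 2 ^ S * 2 ^ S := Nat.mul_le_mul hnS hnS
          _ < T := hcon
      have h4 : T ^ p ≤ (n.choose 2) ^ (2 * p - 1) := by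
        calc T ^ p = 1 * 1 * T ^ p * 1 := by ring
          _ ≤ (C1 + C2 + 1) ^ (p ^ 2) * k ^ (2 * p - 1) * T ^ p * S ^ (p - 1) :=
              Nat.mul_le_mul (Nat.mul_le_mul_right _ (Nat.mul_le_mul
                (Nat.one_le_pow _ _ (by omega)) (Nat.one_le_pow _ _ hk))) (Nat.one_le_pow _ _ hS)
          _ ≤ (n.choose 2) ^ (2 * p - 1) := hC2
      have h5 : (n.choose 2) ^ (2 * p - 1) ≤ (n.choose 2) ^ (2 * p) :=
        Nat.pow_le_pow_right hN (by omega)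
      have h6 : (n.choose 2) ^ (2 * p) < T ^ p := by
        rw [pow_mul]
        exact Nat.pow_lt_pow_left h3 (by omega)
      omega
    obtain ⟨M, qa, qb, r0, B, κ0, κ, m, a1, a2, a3, a4, a5, a6, a7, a8, a9, a10, a11, a12, a13⟩ :=
      h2 n s k p T S hn hk hp hT hS hs (le_trans (by gcongr; omega) hC1)
        (le_trans (by gcongr; omega) hC2)
    exact lowerQ (by omega) a1 a2 a3 a4 a5 a6 hS hnS hw hTS a7 a8 a9 a10 a11 a12 a13

/-- many heads, cliques with at least half of the vertices: the condition on the heads alone -/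
private theorem finalQ_half {C n k p T S : ℕ} (hn : 2 ≤ n) (hp : 2 ≤ p)
    (hT : n.choose 2 ≤ T) (hS : 1 ≤ S)
    (h : (2 * C ^ 2) ^ (p ^ 2) * k ^ (2 * p) * T ^ p * S ^ (p - 1) ≤
      (n.choose 2) ^ (2 * p - 1)) :
    C ^ (p ^ 2) * k ^ p * T ≤ n.choose 2 * ((n + 1) / 2) ^ (p - 1) := by
  obtain ⟨P, rfl⟩ : ∃ P, p = P + 2 := ⟨p - 2, by omega⟩
  have e1 : 2 * (P + 2) - 1 = 2 * P + 3 := by omega
  have e2 : P + 2 - 1 = P + 1 := by omega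
  rw [e1, e2] at h
  rw [e2]
  obtain ⟨N, hN⟩ : ∃ N, N = n.choose 2 := ⟨_, rfl⟩
  obtain ⟨s, hs⟩ : ∃ s, s = (n + 1) / 2 := ⟨_, rfl⟩
  have hN1 : 1 ≤ N := by
    rw [hN]
    exact Nat.choose_pos hn
  have hNs : N ≤ 2 * s ^ 2 := by
    have h1 : 2 * N ≤ n * n := by
      rw [hN, Nat.choose_two_right]
      have h2 : 2 * (n * (n - 1) / 2) ≤ n * (n - 1) := Nat.mul_div_le _ _
      exact h2.trans (Nat.mul_le_mul_left _ (Nat.sub_le _ _))
    have h2 : n ≤ 2 * s := by omega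
    have h3 : n * n ≤ (2 * s) * (2 * s) := Nat.mul_le_mul h2 h2
    nlinarith
  rw [← hN] at h hT ⊢
  rw [← hs]
  -- cancel `N ^ P`
  have h4 : N ^ P * ((2 * C ^ 2) ^ ((P + 2) ^ 2) * k ^ (2 * (P + 2)) * T ^ 2) ≤
      N ^ P * N ^ (P + 3) := by
    calc N ^ P * ((2 * C ^ 2) ^ ((P + 2) ^ 2) * k ^ (2 * (P + 2)) * T ^ 2)
        ≤ T ^ P * ((2 * C ^ 2) ^ ((P + 2) ^ 2) * k ^ (2 * (P + 2)) * T ^ 2) :=
          Nat.mul_le_mul_right _ (Nat.pow_le_pow_left hT _)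
      _ = (2 * C ^ 2) ^ ((P + 2) ^ 2) * k ^ (2 * (P + 2)) * T ^ (P + 2) * 1 := by ring
      _ ≤ (2 * C ^ 2) ^ ((P + 2) ^ 2) * k ^ (2 * (P + 2)) * T ^ (P + 2) * S ^ (P + 1) :=
          Nat.mul_le_mul_left _ (Nat.one_le_pow _ _ hS)
      _ ≤ N ^ (2 * P + 3) := h
      _ = N ^ P * N ^ (P + 3) := by ring
  have h5 := Nat.le_of_mul_le_mul_left h4 (pow_pos hN1 _)
  refine (Nat.pow_le_pow_iff_left (n := 2) (by norm_num)).mp ?_
  refine Nat.le_of_mul_le_mul_left ?_ (show 0 < 2 ^ (P + 1) by positivity)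
  calc 2 ^ (P + 1) * (C ^ ((P + 2) ^ 2) * k ^ (P + 2) * T) ^ 2
      ≤ 2 ^ ((P + 2) ^ 2) * (C ^ ((P + 2) ^ 2) * k ^ (P + 2) * T) ^ 2 :=
        Nat.mul_le_mul_right _ (Nat.pow_le_pow_right (by norm_num) (by nlinarith))
    _ = (2 * C ^ 2) ^ ((P + 2) ^ 2) * k ^ (2 * (P + 2)) * T ^ 2 := by
        rw [mul_pow 2 (C ^ 2), mul_pow, mul_pow, ← pow_mul C 2, ← pow_mul C _ 2,
          ← pow_mul k _ 2, Nat.mul_comm 2 ((P + 2) ^ 2), Nat.mul_comm (P + 2) 2]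
        ring
    _ ≤ N ^ (P + 3) := h5
    _ = N ^ 2 * N ^ (P + 1) := by ring
    _ ≤ N ^ 2 * (2 * s ^ 2) ^ (P + 1) := Nat.mul_le_mul_left _ (Nat.pow_le_pow_left hNs _)
    _ = 2 ^ (P + 1) * (N * s ^ (P + 1)) ^ 2 := by
        rw [mul_pow, mul_pow, ← pow_mul s 2, ← pow_mul s _ 2, Nat.mul_comm 2 (P + 1)]
        ring

/-- few heads, cliques with at least half of the vertices -/
private theorem finalQ_few {C n k T S : ℕ} (hC : 2 ^ 16 ≤ C) (hT : n.choose 2 ≤ T)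
    (hn : 2 ≤ n) (hS : 1 ≤ S) (h : C ^ (k + 1) * T * S ≤ (n.choose 2) ^ 2) :
    4 * k + 5 ≤ (n + 1) / 2 := by
  have hN1 : 1 ≤ n.choose 2 := Nat.choose_pos hn
  have h1 : C ^ (k + 1) ≤ n.choose 2 := by
    refine Nat.le_of_mul_le_mul_right ?_ (show 0 < n.choose 2 by omega)
    calc C ^ (k + 1) * n.choose 2 ≤ C ^ (k + 1) * T := Nat.mul_le_mul_left _ hT
      _ = C ^ (k + 1) * T * 1 := by ring
      _ ≤ C ^ (k + 1) * T * S := Nat.mul_le_mul_left _ hS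
      _ ≤ (n.choose 2) ^ 2 := h
      _ = n.choose 2 * n.choose 2 := sq _
  have h2 : n.choose 2 ≤ n * n := by
    rw [Nat.choose_two_right]
    exact (Nat.div_le_self _ _).trans (Nat.mul_le_mul_left _ (Nat.sub_le _ _))
  have h3 : (2 ^ 8 * (k + 1)) * (2 ^ 8 * (k + 1)) ≤ C ^ (k + 1) := by
    have h4 : k + 1 ≤ 2 ^ k := Nat.lt_two_pow_self
    calc (2 ^ 8 * (k + 1)) * (2 ^ 8 * (k + 1)) = 2 ^ 16 * ((k + 1) * (k + 1)) := by ring
      _ ≤ 2 ^ 16 * (2 ^ k * 2 ^ k) := Nat.mul_le_mul_left _ (Nat.mul_le_mul h4 h4)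
      _ = 2 ^ (16 + 2 * k) := by rw [pow_add, two_mul, pow_add]
      _ ≤ 2 ^ (16 * (k + 1)) := Nat.pow_le_pow_right (by norm_num) (by omega)
      _ = (2 ^ 16) ^ (k + 1) := by rw [pow_mul]
      _ ≤ C ^ (k + 1) := Nat.pow_le_pow_left hC _
  have h5 : 2 ^ 8 * (k + 1) ≤ n := by
    by_contra hcon
    rw [not_le] at hcon
    have h6 : n * n < (2 ^ 8 * (k + 1)) * (2 ^ 8 * (k + 1)) :=
      Nat.mul_lt_mul_of_lt_of_lt hcon hcon
    omega
  omega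

/-- cliques with at least `s` vertices, sparse oracles -/
theorem resultS : ∃ C : ℕ, ∀ (A : Set (List Bool)) (n s k T S w : ℕ),
    AtMostPerLength A (2 ^ S) → 2 ≤ n → 2 * s ≤ n + 1 → n.choose 2 ≤ T → 1 ≤ S →
    n.choose 2 ≤ 2 ^ S → w ≤ 2 ^ S →
    (4 * k + 5 ≤ s ∧ C ^ (k + 1) * T * S ≤ (n.choose 2) ^ 2 ∨ 1 ≤ k ∧ ∃ p ≥ 2,
      C ^ (p ^ 2) * k ^ p * T ≤ n.choose 2 * s ^ (p - 1) ∧
      C ^ (p ^ 2) * k ^ (2 * p - 1) * T ^ p * S ^ (p - 1) ≤ (n.choose 2) ^ (2 * p - 1)) →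
    ¬ HeadDetO A (2 ^ S) (clique n s) k T w ∧
      ¬ HeadNondetO A (2 ^ S) (fun x => !clique n s x) k T w := by
  obtain ⟨C, h1, h2⟩ := lowerC
  refine ⟨7 * C, fun A n s k T S w hA hn hs hT hS hnS hw hC => ?_⟩
  have h4 : n.choose 2 ≤ 2 ^ (7 * S) :=
    hnS.trans (Nat.pow_le_pow_right (by norm_num) (by omega))
  have hpp : ∀ p : ℕ, p - 1 ≤ p ^ 2 := by
    intro p
    have : p ≤ p ^ 2 := Nat.le_self_pow (by norm_num) p
    omega
  have key : ∀ w', w' ≤ 2 ^ (7 * S) →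
      ¬ HeadNondet (fun x => !clique n s x) k T w' ∧ ¬ HeadDet (clique n s) k T w' := by
    intro w' hw'
    rcases hC with ⟨hk, hC⟩ | ⟨hk, p, hp, hC1, hC2⟩
    · refine h1 n s k T (7 * S) w' hn hT (by omega) h4 hw' hk hs ?_
      calc C ^ (k + 1) * T * (7 * S) = 7 ^ 1 * C ^ (k + 1) * T * S := by ring
        _ ≤ 7 ^ (k + 1) * C ^ (k + 1) * T * S := by
            gcongr
            · norm_num
            · omega
        _ = (7 * C) ^ (k + 1) * T * S := by rw [mul_pow]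
        _ ≤ (n.choose 2) ^ 2 := hC
    · refine h2 n s k p T (7 * S) w' hn hk hp hT (by omega) h4 hw' hs ?_ ?_
      · refine le_trans ?_ hC1
        gcongr
        omega
      · calc C ^ (p ^ 2) * k ^ (2 * p - 1) * T ^ p * (7 * S) ^ (p - 1)
            = 7 ^ (p - 1) * C ^ (p ^ 2) * k ^ (2 * p - 1) * T ^ p * S ^ (p - 1) := by
              rw [mul_pow]
              ring
          _ ≤ 7 ^ (p ^ 2) * C ^ (p ^ 2) * k ^ (2 * p - 1) * T ^ p * S ^ (p - 1) := by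
              gcongr
              · norm_num
              · exact hpp p
          _ = (7 * C) ^ (p ^ 2) * k ^ (2 * p - 1) * T ^ p * S ^ (p - 1) := by rw [mul_pow]
          _ ≤ (n.choose 2) ^ (2 * p - 1) := hC2
  constructor
  · intro h6
    obtain ⟨w', h7, h8⟩ := headDet_of_O hA le_rfl hS hw h6
    exact (key w' h7).2 h8
  · intro h6
    obtain ⟨w', h7, h8⟩ := headNondet_of_O hA le_rfl hS hw h6
    exact (key w' h7).1 h8

/-- cliques with at least half of the vertices, sparse oracles -/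
theorem resultQ : ∃ C : ℕ, ∀ (A : Set (List Bool)) (n k T S w : ℕ), AtMostPerLength A (2 ^ S) →
    2 ≤ n → n.choose 2 ≤ T → 1 ≤ S → n.choose 2 ≤ 2 ^ S → w ≤ 2 ^ S →
    (C ^ (k + 1) * T * S ≤ (n.choose 2) ^ 2 ∨ 1 ≤ k ∧ ∃ p ≥ 2,
      C ^ (p ^ 2) * k ^ (2 * p) * T ^ p * S ^ (p - 1) ≤ (n.choose 2) ^ (2 * p - 1)) →
    ¬ HeadDetO A (2 ^ S) (clique n ((n + 1) / 2)) k T w ∧
      ¬ HeadNondetO A (2 ^ S) (fun x => !clique n ((n + 1) / 2) x) k T w := by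
  obtain ⟨C0, h0⟩ := resultS
  refine ⟨2 ^ 16 + C0 + 2 * (C0 + 1) ^ 2, fun A n k T S w hA hn hT hS hnS hw hC => ?_⟩
  obtain ⟨C, hCd⟩ : ∃ C, C = 2 ^ 16 + C0 + 2 * (C0 + 1) ^ 2 := ⟨_, rfl⟩
  rw [← hCd] at hC
  refine h0 A n ((n + 1) / 2) k T S w hA hn (by omega) hT hS hnS hw ?_
  rcases hC with hC | ⟨hk, p, hp, hC⟩
  · refine Or.inl ⟨finalQ_few (by omega) hT hn hS hC, le_trans ?_ hC⟩
    gcongr
    omega
  · refine Or.inr ⟨hk, p, hp, ?_, le_trans ?_ hC⟩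
    · have hq : (2 * (C0 + 1) ^ 2) ^ (p ^ 2) * k ^ (2 * p) * T ^ p * S ^ (p - 1) ≤
          (n.choose 2) ^ (2 * p - 1) := by
        refine le_trans ?_ hC
        gcongr
        omega
      refine le_trans ?_ (finalQ_half (C := C0 + 1) (k := k) hn hp hT hS hq)
      gcongr
      omega
    · gcongr
      · omega
      · omega

end Pool.Agent.SQ
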